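import Mathlib
import Pool.Agent.Lib.Pf72953.Orb
import Pool.Agent.Lib.Pf72953.Coord

/-!
Prime divisors of a smooth chart: the centre of a valuation; a direction in which a uniformizer is not critical.
-/

set_option autoImplicit false
set_option linter.style.haveILetI false

open scoped WithZero
open Pf72953

namespace Pf72953.Br

section

variable {B Z : Type*} [Field B] [Field Z] [Algebra B Z]

/-- the centre of a valuation on the affine variety `Spec A` -/
def center (A : Subalgebra B Z) (v : Valuation Z ℤᵐ⁰) (hA : ∀ a ∈ A, v a ≤ 1) : Ideal A where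
  carrier := {a | v (a : Z) < 1}
  add_mem' := fun {a b} ha hb => by
    change v ((a : Z) + (b : Z)) < 1
    exact (v.map_add _ _).trans_lt (max_lt ha hb)
  zero_mem' := by
    change v ((0 : A) : Z) < 1
    simp
  smul_mem' := fun c a ha => by
    change v ((c : Z) * (a : Z)) < 1
    rw [map_mul]
    calc v (c : Z) * v (a : Z) ≤ 1 * v (a : Z) := by gcongr; exact hA _ c.2
      _ = v (a : Z) := one_mul _
      _ < 1 := ha

theorem mem_center {A : Subalgebra B Z} {v : Valuation Z ℤᵐ⁰} {hA : ∀ a ∈ A, v a ≤ 1} {a : A} :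
    a ∈ center A v hA ↔ v (a : Z) < 1 := Iff.rfl

end

variable {B Z ι : Type*} [Field B] [CharZero B] [Field Z] [Algebra B Z] [Fintype ι]
  {x : ι → Z} {hx : IsTranscendenceBasis B x}

theorem exists_dir [Algebra.EssFiniteType B Z] {v : Valuation Z ℤᵐ⁰} (hv : IsDivisorial B Z v)
    (hr : RegBasis B v x) {t : Z} (ht : IsUnif v t) : ∃ a, v (pd hx a t) = 1 := by
  classical
  have hcard := card_eq_of_isTranscendenceBasis hx
  obtain ⟨c, t', ht', hc⟩ := hv.exists_adapted hcard
  have hreg := hc.regBasis hcard ht'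
  obtain ⟨j₀, hj₀⟩ : ∃ j₀, c j₀ = t' := by
    obtain ⟨r, e, x, hx, ht0, ht', rfl⟩ := hc
    exact ⟨e.symm none, by simp⟩
  have hle : ∀ a z, v z ≤ 1 → v (pd hx a z) ≤ 1 := fun a z hz => hr.der a z hz
  have key : ∃ a, v (pd hx a t') = 1 := by
    by_contra hcon
    push Not at hcon
    have hlt : ∀ a, v (pd hx a t') < 1 := fun a => lt_of_le_of_ne (hle a _ ht'.lt_one.le) (hcon a)
    have h1 : pd hreg.tb j₀ t' = ∑ a, pd hx a t' * pd hreg.tb j₀ (x a) := by
      have := der_eq_sum hx (pd hreg.tb j₀) t'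
      rw [this]
    have h2 : pd hreg.tb j₀ t' = 1 := by
      rw [← hj₀]
      have := pd_self hreg.tb j₀ j₀
      simpa using this
    have h3 : v (∑ a, pd hx a t' * pd hreg.tb j₀ (x a)) < 1 := by
      refine Valuation.map_sum_lt _ one_ne_zero fun a _ => ?_
      rw [map_mul]
      calc _ ≤ v (pd hx a t') * 1 := by
            gcongr
            exact hreg.der _ _ (hr.le_one a)
        _ = v (pd hx a t') := mul_one _
        _ < 1 := hlt a
    rw [← h1, h2, map_one] at h3
    exact lt_irrefl _ h3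
  obtain ⟨a, ha⟩ := key
  refine ⟨a, ?_⟩
  have ht0 : v t' ≠ 0 := (Valuation.ne_zero_iff v).mpr ht'.ne_zero
  have hvt : v t = v t' := le_antisymm (ht'.le t ht.lt_one) (ht.le t' ht'.lt_one)
  have hu : t = t' * (t / t') := by
    rw [mul_div_cancel₀ _ ht'.ne_zero]
  have hvu : v (t / t') = 1 := by rw [map_div₀, hvt, div_self ht0]
  rw [hu, Derivation.leibniz, smul_eq_mul, smul_eq_mul, Valuation.map_add_eq_of_lt_right]
  · rw [map_mul, hvu, ha, one_mul]
  · rw [map_mul, map_mul, hvu, ha, one_mul]
    calc _ ≤ v t' * 1 := by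
          gcongr
          exact hle a _ hvu.le
      _ = v t' := mul_one _
      _ < 1 := ht'.lt_one

end Pf72953.Br
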