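import Mathlib
import Pool.Agent.Lib.Pf72953b.CenterDef
import Pool.Agent.Lib.Pf72953u.Normal

/-!
MODULE Pf72953b.CenterEq: a prime divisor of a smooth chart is determined by its centre.

`A` is a smooth chart of `Z/B` with étale coordinates `x`, `v` a divisorial valuation of `Z/B` with `v ≤ 1` on `A` and
`RegBasis B v x`; `t ∈ Z` a uniformizer (`exists_unif`, `hv.nontrivial`), `a` with `v (∂_a t) = 1` (`exists_dir`, proved in
CenterDef.lean), `∂_b = pd hx b`, which preserves `O_v` (`hr.der`) and `A` (`h.der`).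

PROOF.
(1) For `z ≠ 0` in `Z`, `v z = v t ^ n` with `n ≥ 1`: `z = t^n u`, `v u = 1`, so `v (∂_b z) ≤ v t ^ (n-1)` for all `b` and
   `v (∂_a z) = v t ^ (n-1)` (`∂_a z = n t^(n-1) u ∂_a t + t^n ∂_a u`, `v (n : Z) = 1`: `hv.const`, or `ResIndep.natCast`).
   (Every `z ≠ 0` with `v z ≤ 1` has `v z = v t ^ n` for some natural `n`: induction using `IsUnif.le`, or logarithms
   in `ℤᵐ⁰`.)
(2) For `f ∈ A`, `f ≠ 0`: let `n(f)` be the least length of a word `α` (a list of indices) with `v (∂^α f) = 1` (not `< 1`);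
   `∂^α f ∈ A`.  By (1) `v f = v t ^ n(f)` (each derivative raises the value by at most one step, and `∂_a` by exactly one
   step as long as the value is `< 1`).
(3) `n(f)` only depends on the ideal `center A v hA` (`v (g) = 1 ↔ g ∉ center` for `g ∈ A`), so with `t'` a uniformizer of
   `v'` also `v' f = v' t' ^ n(f)`.  Every `z ∈ Z` is `f / g`, `f, g ∈ A`, `g ≠ 0` (`h.frac`): for `z ≠ 0`,
   `v z ≤ 1 ↔ v f ≤ v g ↔ n(g) ≤ n(f) ↔ v' z ≤ 1` (`0 < v t < 1`).
-/

set_option autoImplicit false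
set_option linter.style.haveILetI false

open scoped WithZero
open Pf72953 Pf72953.Up

namespace Pf72953.Br

variable {B Z ι : Type*} [Field B] [CharZero B] [Field Z] [Algebra B Z] [Fintype ι]
  [DecidableEq ι] {x : ι → Z} {hx : IsTranscendenceBasis B x} {A : Subalgebra B Z}

namespace CenterEqAux

omit [CharZero B] [Fintype ι] [DecidableEq ι] in
/-- one derivative -/
theorem step {v : Valuation Z ℤᵐ⁰} {t : Z} (ht : IsUnif v t) (D : Derivation B Z Z)
    (hD : ∀ a, v a ≤ 1 → v (D a) ≤ 1) (hnat : ∀ n : ℕ, n ≠ 0 → v (n : Z) = 1) {z : Z} {n : ℕ}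
    (he : v z = v t ^ (n + 1)) : v (D z) ≤ v t ^ n ∧ (v (D t) = 1 → v (D z) = v t ^ n) := by
  have ht' : v t ≠ 0 := (Valuation.ne_zero_iff v).mpr ht.ne_zero
  have htpos : 0 < v t := zero_lt_iff.mpr ht'
  set u := z / t ^ (n + 1) with hu
  have hzu : z = t ^ (n + 1) * u := by
    rw [hu]
    have := ht.ne_zero
    field_simp
  have hvu : v u = 1 := by
    rw [hu, map_div₀, map_pow, he]
    exact div_self (pow_ne_zero _ ht')
  have h2 : D z = ((n + 1 : ℕ) : Z) * t ^ n * u * D t + t ^ (n + 1) * D u := by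
    rw [hzu, Derivation.leibniz, Derivation.leibniz_pow]
    simp only [smul_eq_mul, nsmul_eq_mul, Nat.add_sub_cancel]
    push_cast
    ring
  have h3 : v (((n + 1 : ℕ) : Z) * t ^ n * u * D t) = v t ^ n * v (D t) := by
    rw [map_mul, map_mul, map_mul, hnat _ (Nat.succ_ne_zero n), hvu, map_pow, one_mul, mul_one]
  have h4 : v (t ^ (n + 1) * D u) < v t ^ n := by
    rw [map_mul, map_pow, pow_succ]
    have h5 := hD u hvu.le
    calc v t ^ n * v t * v (D u) ≤ v t ^ n * v t * 1 := by gcongr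
      _ = v t ^ n * v t := mul_one _
      _ < v t ^ n * 1 := by
        refine mul_lt_mul_of_pos_left ht.lt_one (pow_pos htpos n)
      _ = v t ^ n := mul_one _
  constructor
  · rw [h2]
    refine (v.map_add _ _).trans (max_le ?_ h4.le)
    rw [h3]
    calc v t ^ n * v (D t) ≤ v t ^ n * 1 := by
          gcongr
          exact hD t ht.lt_one.le
      _ = v t ^ n := mul_one _
  · intro h5
    rw [h5, mul_one] at h3
    rw [h2, Valuation.map_add_eq_of_lt_left v (by rw [h3]; exact h4), h3]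

/-- iterated derivatives along a word -/
noncomputable def wd (hx : IsTranscendenceBasis B x) : List ι → Z → Z
  | [], z => z
  | a :: l, z => wd hx l (pd hx a z)

omit [Fintype ι] [DecidableEq ι] in
theorem wd_mem (hA : ∀ a, ∀ f ∈ A, pd hx a f ∈ A) (l : List ι) : ∀ f ∈ A, wd hx l f ∈ A := by
  induction l with
  | nil => exact fun f hf => hf
  | cons a l ih => exact fun f hf => ih _ (hA a f hf)

omit [Fintype ι] [DecidableEq ι] in
theorem wd_le {v : Valuation Z ℤᵐ⁰} {t : Z} (ht : IsUnif v t)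
    (hD : ∀ i a, v a ≤ 1 → v (pd hx i a) ≤ 1) (hnat : ∀ n : ℕ, n ≠ 0 → v (n : Z) = 1)
    (l : List ι) : ∀ (z : Z) (n : ℕ), v z ≤ v t ^ n → v (wd hx l z) ≤ v t ^ (n - l.length) := by
  have ht' : v t ≠ 0 := (Valuation.ne_zero_iff v).mpr ht.ne_zero
  have htpos : 0 < v t := zero_lt_iff.mpr ht'
  induction l with
  | nil => exact fun z n h => h
  | cons a l ih =>
    intro z n hz
    have h1 : v (pd hx a z) ≤ v t ^ (n - 1) := by
      rcases eq_or_ne z 0 with rfl | hz0
      · rw [map_zero, map_zero]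
        exact zero_le
      · have hz1 : v z ≤ 1 := hz.trans (pow_le_one' ht.lt_one.le n)
        obtain ⟨e, he⟩ := ht.exists_pow hz0 hz1
        rcases Nat.eq_zero_or_pos e with rfl | he0
        · have hn : n = 0 := by
            by_contra hn
            rw [pow_zero] at he
            rw [he] at hz
            have h2 : v t ^ n < 1 := pow_lt_one₀ zero_le ht.lt_one hn
            exact absurd hz (not_le.mpr h2)
          subst hn
          simpa using hD a z hz1
        · obtain ⟨m, rfl⟩ := Nat.exists_eq_succ_of_ne_zero he0.ne'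
          refine ((step ht (pd hx a) (hD a) hnat he).1).trans ?_
          refine pow_le_pow_right_of_le_one' ht.lt_one.le ?_
          by_contra hlt
          push Not at hlt
          rw [he] at hz
          have h3 : v t ^ n < v t ^ (m.succ) := pow_lt_pow_right_of_lt_one₀ htpos ht.lt_one (by omega)
          exact absurd hz (not_le.mpr h3)
    have h2 := ih _ _ h1
    rw [List.length_cons, ← Nat.sub_sub, Nat.sub_right_comm]
    exact h2

omit [Fintype ι] [DecidableEq ι] in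
theorem wd_exists {v : Valuation Z ℤᵐ⁰} {t : Z} (ht : IsUnif v t)
    (hD : ∀ i a, v a ≤ 1 → v (pd hx i a) ≤ 1) (hnat : ∀ n : ℕ, n ≠ 0 → v (n : Z) = 1)
    {a : ι} (ha : v (pd hx a t) = 1) (n : ℕ) : ∀ z : Z, v z = v t ^ n →
    ∃ l : List ι, l.length = n ∧ v (wd hx l z) = 1 := by
  induction n with
  | zero =>
    intro z hz
    exact ⟨[], rfl, by rw [pow_zero] at hz; exact hz⟩
  | succ n ih =>
    intro z hz
    have h1 := (step ht (pd hx a) (hD a) hnat hz).2 ha
    obtain ⟨l, hl, hl2⟩ := ih _ h1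
    exact ⟨a :: l, by rw [List.length_cons, hl], hl2⟩

/-- half of the comparison of the orders -/
theorem ord_le (hAd : ∀ a, ∀ f ∈ A, pd hx a f ∈ A) {v v' : Valuation Z ℤᵐ⁰} {t t' : Z} (ht : IsUnif v t)
    (ht' : IsUnif v' t') (hD : ∀ i a, v a ≤ 1 → v (pd hx i a) ≤ 1)
    (hD' : ∀ i a, v' a ≤ 1 → v' (pd hx i a) ≤ 1) (hnat : ∀ n : ℕ, n ≠ 0 → v (n : Z) = 1)
    (hnat' : ∀ n : ℕ, n ≠ 0 → v' (n : Z) = 1) {a : ι} (ha : v (pd hx a t) = 1)
    (hc : ∀ g ∈ A, v g = 1 → v' g = 1) {f : Z} (hf : f ∈ A) {n n' : ℕ} (hn : v f = v t ^ n)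
    (hn' : v' f = v' t' ^ n') : n' ≤ n := by
  by_contra hlt
  push Not at hlt
  obtain ⟨l, hl, hl2⟩ := wd_exists ht hD hnat ha n f hn
  have h1 := hc _ (wd_mem hAd l f hf) hl2
  have h2 := wd_le ht' hD' hnat' l f n' hn'.le
  rw [h1, hl] at h2
  have h3 : v' t' ^ (n' - n) < 1 := pow_lt_one₀ zero_le ht'.lt_one (by omega)
  exact absurd h2 (not_le.mpr h3)

theorem nat_val {v : Valuation Z ℤᵐ⁰} (hv : ∀ c : B, c ≠ 0 → v (algebraMap B Z c) = 1) (n : ℕ)
    (hn : n ≠ 0) : v (n : Z) = 1 := by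
  have h := hv (n : B) (Nat.cast_ne_zero.mpr hn)
  rwa [map_natCast] at h

theorem eq_one_iff {v : Valuation Z ℤᵐ⁰} (hA : ∀ a ∈ A, v a ≤ 1) {g : Z} (hg : g ∈ A) :
    v g = 1 ↔ (⟨g, hg⟩ : A) ∉ center A v hA := by
  rw [mem_center]
  constructor
  · intro h
    change ¬ (v g < 1)
    rw [h]
    exact lt_irrefl _
  · intro h
    change ¬ (v g < 1) at h
    exact le_antisymm (hA g hg) (not_lt.mp h)

end CenterEqAux

open CenterEqAux in
theorem center_eq [Algebra.EssFiniteType B Z] (h : Chart hx A) {v v' : Valuation Z ℤᵐ⁰}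
    (hv : IsDivisorial B Z v) (hv' : IsDivisorial B Z v') (hr : RegBasis B v x)
    (hr' : RegBasis B v' x) (hA : ∀ a ∈ A, v a ≤ 1) (hA' : ∀ a ∈ A, v' a ≤ 1)
    (heq : center A v hA = center A v' hA') (z : Z) : v z ≤ 1 ↔ v' z ≤ 1 := by
  obtain ⟨t, ht⟩ := exists_unif v hv.nontrivial
  obtain ⟨t', ht'⟩ := exists_unif v' hv'.nontrivial
  obtain ⟨a, ha⟩ := exists_dir (hx := hx) hv hr ht
  obtain ⟨a', ha'⟩ := exists_dir (hx := hx) hv' hr' ht'
  have hD : ∀ i a, v a ≤ 1 → v (pd hx i a) ≤ 1 := hr.der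
  have hD' : ∀ i a, v' a ≤ 1 → v' (pd hx i a) ≤ 1 := hr'.der
  have hnat : ∀ n : ℕ, n ≠ 0 → v (n : Z) = 1 := nat_val hv.const
  have hnat' : ∀ n : ℕ, n ≠ 0 → v' (n : Z) = 1 := nat_val hv'.const
  have hc : ∀ g ∈ A, v g = 1 ↔ v' g = 1 := by
    intro g hg
    rw [eq_one_iff hA hg, eq_one_iff hA' hg, heq]
  have hord : ∀ f ∈ A, f ≠ 0 → ∃ n : ℕ, v f = v t ^ n ∧ v' f = v' t' ^ n := by
    intro f hf hf0
    obtain ⟨n, hn⟩ := ht.exists_pow hf0 (hA f hf)
    obtain ⟨n', hn'⟩ := ht'.exists_pow hf0 (hA' f hf)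
    have h1 := ord_le h.der ht ht' hD hD' hnat hnat' ha (fun g hg => (hc g hg).1) hf hn hn'
    have h2 := ord_le h.der ht' ht hD' hD hnat' hnat ha' (fun g hg => (hc g hg).2) hf hn' hn
    have h3 : n' = n := le_antisymm h1 h2
    subst h3
    exact ⟨n', hn, hn'⟩
  have hcmp : ∀ {w : Valuation Z ℤᵐ⁰} {s : Z}, IsUnif w s → ∀ m n : ℕ,
      (w s ^ m / w s ^ n ≤ 1 ↔ n ≤ m) := by
    intro w s hs m n
    have hs' : w s ≠ 0 := (Valuation.ne_zero_iff w).mpr hs.ne_zero
    have hspos : 0 < w s := zero_lt_iff.mpr hs'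
    rw [div_le_one₀ (pow_pos hspos n)]
    constructor
    · intro h1
      by_contra hlt
      push Not at hlt
      exact absurd h1 (not_le.mpr (pow_lt_pow_right_of_lt_one₀ hspos hs.lt_one hlt))
    · intro h1
      exact pow_le_pow_right_of_le_one' hs.lt_one.le h1
  obtain ⟨f, hf, g, hg, hg0, rfl⟩ := h.frac z
  rcases eq_or_ne f 0 with rfl | hf0
  · simp
  obtain ⟨m, hm, hm'⟩ := hord f hf hf0
  obtain ⟨n, hn, hn'⟩ := hord g hg hg0
  rw [map_div₀, map_div₀, hm, hm', hn, hn', hcmp ht, hcmp ht']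

end Pf72953.Br
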