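import Mathlib
import Pool.Agent.Lib.Pf72953b.CenterDef
import Pool.Agent.Lib.Pf72953u.Normal

/-!
MODULE Pf72953b.CenterMin: the centre of a prime divisor of a smooth chart is a minimal prime over each of its nonzero
elements (it has height one).

`A` is a smooth chart of `Z/B` with étale coordinates `x`, `v` a divisorial valuation of `Z/B` with `v ≤ 1` on `A` and
`RegBasis B v x`; `t ∈ Z` a uniformizer, `a₀` with `v (∂_{a₀} t) = 1` (`exists_dir`, CenterDef.lean), `∂_b = pd hx b`.

PROOF.  `𝔭 = center A v hA` is prime and contains `f`.  Let `Q ⊆ 𝔭` be a prime ideal with `f ∈ Q`; we show `Q = 𝔭`; this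
gives `𝔭 ∈ (Ideal.span {f}).minimalPrimes` by definition.
(a) The family `x_b`, `b ≠ a₀`, is residually algebraically independent: `v (p (x_b)_{b ≠ a₀}) = 1` for every nonzero
   polynomial `p` over `B`.  Suppose `p ≠ 0` has minimal total degree with `v (p (x)) < 1` (always `≤ 1`); `p` is not constant
   (`hv.const`); in characteristic zero some `∂p/∂X_b` is nonzero, of smaller degree, so `v ((∂p/∂X_b)(x)) = 1`.  Let
   `δ = ∂_b - (∂_b t / ∂_{a₀} t) • ∂_{a₀}`: it preserves `O_v`, `δ t = 0`, so `δ` maps `{v < 1} = t O_v` to itself; but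
   `δ (p(x)) = (∂p/∂X_b)(x)` (since `p` does not involve `x_{a₀}`, `pd_self`, chain rule) has value `1`.  Contradiction.
   (This argument is carried out for localisations of charts in Pf72953u/Divis.lean, `val_poly`, `pd_aeval_sub`, which can be copied;
   `totalDegree_pderiv_lt`, `exists_pderiv_ne_zero` are in Pf72953m/Wron.lean.)
(b) Suppose `g ∈ 𝔭`, `g ∉ Q`.  Claim: there is a nonzero polynomial `P(X_b (b ≠ a₀), T)` over `B` with `P(x_b, g) ∈ Q`.  Otherwise the
   classes of the `n` elements `x_b` (`b ≠ a₀`), `g` of `A` are algebraically independent over `B` in the domain `A/Q`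
   (`n = Fintype.card ι`), hence these elements are algebraically independent in `Z`, hence (number `n` = transcendence degree of `Z/B`) a
   transcendence basis, and `f` is algebraic over `B(x_b, g)`: a relation `∑_j p_j(x_b, g) f^j = 0` with `p_0 ≠ 0` (divide by a
   power of `f ≠ 0`); modulo `Q ∋ f`: `p_0(x_b, g) ∈ Q`, a contradiction.
   Choose such a `P` of minimal degree in `T`.  `P(X, 0) ≠ 0`: otherwise `P = T P'`, `g P'(x, g) ∈ Q`, `g ∉ Q`, so `P'(x, g) ∈ Q` with `P'` of
   smaller degree.  As `g ∈ 𝔭`, `Q ⊆ 𝔭`: `P(x, 0) ≡ P(x, g) ≡ 0 mod 𝔭`, i.e. `v (P(x, 0)) < 1`, contradicting (a).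
-/

set_option autoImplicit false
set_option linter.style.haveILetI false

open scoped WithZero
open Pf72953 Pf72953.Up

namespace Pf72953.Br

variable {B Z ι : Type*} [Field B] [CharZero B] [Field Z] [Algebra B Z] [Fintype ι]
  [DecidableEq ι] {x : ι → Z} {hx : IsTranscendenceBasis B x} {A : Subalgebra B Z}

namespace CenterMinAux

omit [Fintype ι] in
theorem val_poly {v : Valuation Z ℤᵐ⁰} (hconst : ∀ c : B, c ≠ 0 → v (algebraMap B Z c) = 1)
    (hle : ∀ a z, v z ≤ 1 → v (pd hx a z) ≤ 1) (hA : ∀ a ∈ A, v a ≤ 1) (hmem : ∀ i, x i ∈ A)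
    {t : Z} (ht : IsUnif v t) {a₀ : ι} (ha₀ : v (pd hx a₀ t) = 1) :
    ∀ n : ℕ, ∀ p : MvPolynomial ({i | i ≠ a₀} : Set ι) B, p.totalDegree = n → p ≠ 0 →
      v (MvPolynomial.aeval (fun i : ({i | i ≠ a₀} : Set ι) => x i) p) = 1 := by
  intro n
  induction n using Nat.strong_induction_on with
  | _ n ih =>
    intro p hpn hp0
    by_cases h0 : p.totalDegree = 0
    · rw [MvPolynomial.totalDegree_eq_zero_iff_eq_C] at h0
      have hc0 : MvPolynomial.coeff 0 p ≠ 0 := by
        intro hc
        rw [hc, map_zero] at h0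
        exact hp0 h0
      rw [h0, MvPolynomial.aeval_C]
      exact hconst _ hc0
    · obtain ⟨j, hj⟩ := Mov.exists_pderiv_ne_zero h0
      have h1 := ih _ (by rw [← hpn]; exact Mov.totalDegree_pderiv_lt hj) _ rfl hj
      set z : Z := MvPolynomial.aeval (fun i : ({i | i ≠ a₀} : Set ι) => x i) p with hz
      have hzA : z ∈ A := by
        have h2 : z ∈ (MvPolynomial.aeval
            (fun i : ({i | i ≠ a₀} : Set ι) => x i) : _ →ₐ[B] Z).range := ⟨p, rfl⟩
        rw [← Algebra.adjoin_range_eq_range_aeval] at h2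
        refine (Algebra.adjoin_le (S := A) ?_) h2
        rintro _ ⟨i, rfl⟩
        exact hmem i
      by_contra hne
      have hlt : v z < 1 := lt_of_le_of_ne (hA z hzA) hne
      have hu : v (z / t) ≤ 1 := by
        rw [map_div₀]
        exact div_le_one_of_le₀ (ht.le z hlt) zero_le
      have e1 : z = t * (z / t) := by rw [mul_div_cancel₀]; exact ht.ne_zero
      have e2 : ∀ i, pd hx i z = t * pd hx i (z / t) + (z / t) * pd hx i t := by
        intro i
        conv_lhs => rw [e1]
        rw [Derivation.leibniz, smul_eq_mul, smul_eq_mul]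
      have e3 : pd hx a₀ z = 0 :=
        (DivisAux.pd_aeval_sub (s := {i | i ≠ a₀}) a₀ p).2 (fun h => h rfl)
      have e4 : pd hx j z = MvPolynomial.aeval (fun i : ({i | i ≠ a₀} : Set ι) => x i)
          (MvPolynomial.pderiv j p) :=
        (DivisAux.pd_aeval_sub (s := {i | i ≠ a₀}) (j : ι) p).1 j rfl
      have e5 : pd hx a₀ t * pd hx j z =
          t * (pd hx a₀ t * pd hx j (z / t) - pd hx j t * pd hx a₀ (z / t)) := by
        have h3 := e2 a₀
        rw [e3] at h3
        rw [e2 j]
        linear_combination (-(pd hx j t)) * h3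
      have h4 : v (pd hx a₀ t * pd hx j z) = 1 := by
        rw [map_mul, ha₀, one_mul, e4, h1]
      have h5 : v (t * (pd hx a₀ t * pd hx j (z / t) - pd hx j t * pd hx a₀ (z / t))) < 1 := by
        rw [map_mul]
        refine mul_lt_one_of_lt_of_le ht.lt_one ?_
        refine (v.map_sub _ _).trans (max_le ?_ ?_)
        · rw [map_mul, ha₀, one_mul]
          exact hle _ _ hu
        · rw [map_mul]
          exact mul_le_one' (hle _ _ ht.lt_one.le) (hle _ _ hu)
      rw [← e5, h4] at h5
      exact lt_irrefl _ h5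

/-- the evaluation of polynomials over `B[x_b : b ≠ a₀]` at `g` -/
noncomputable def phi (A : Subalgebra B Z) (hmem : ∀ i, x i ∈ A) (a₀ : ι) :
    MvPolynomial ({i | i ≠ a₀} : Set ι) B →ₐ[B] A :=
  MvPolynomial.aeval (fun i : ({i | i ≠ a₀} : Set ι) => (⟨x i, hmem i⟩ : A))

omit [CharZero B] [Fintype ι] [DecidableEq ι] in
theorem coe_phi (hmem : ∀ i, x i ∈ A) (a₀ : ι) (p : MvPolynomial ({i | i ≠ a₀} : Set ι) B) :
    ((phi A hmem a₀ p : A) : Z) =
      MvPolynomial.aeval (fun i : ({i | i ≠ a₀} : Set ι) => x i) p := by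
  have h : (A.val.comp (phi A hmem a₀)) =
      MvPolynomial.aeval (fun i : ({i | i ≠ a₀} : Set ι) => x i) := by
    apply MvPolynomial.algHom_ext
    intro i
    simp [phi]
  have := congrArg (fun F => F p) h
  exact this

/-- the evaluation of polynomials in `x_b`, `b ≠ a₀`, and `g` -/
noncomputable def psi (A : Subalgebra B Z) (hmem : ∀ i, x i ∈ A) (a₀ : ι) (g : A) :
    MvPolynomial (Option ({i | i ≠ a₀} : Set ι)) B →ₐ[B] A :=
  MvPolynomial.aeval (fun o => o.elim g (fun i : ({i | i ≠ a₀} : Set ι) => (⟨x i, hmem i⟩ : A)))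

omit [CharZero B] [Fintype ι] [DecidableEq ι] in
theorem coe_psi (hmem : ∀ i, x i ∈ A) (a₀ : ι) (g : A)
    (p : MvPolynomial (Option ({i | i ≠ a₀} : Set ι)) B) :
    ((psi A hmem a₀ g p : A) : Z) =
      MvPolynomial.aeval (fun o => o.elim (g : Z) (fun i : ({i | i ≠ a₀} : Set ι) => x i)) p := by
  have h : (A.val.comp (psi A hmem a₀ g)) =
      MvPolynomial.aeval (fun o => o.elim (g : Z) (fun i : ({i | i ≠ a₀} : Set ι) => x i)) := by
    apply MvPolynomial.algHom_ext
    intro i
    cases i <;> simp [psi]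
  have := congrArg (fun F => F p) h
  exact this

omit [CharZero B] [Fintype ι] [DecidableEq ι] in
theorem psi_eq (hmem : ∀ i, x i ∈ A) (a₀ : ι) (g : A)
    (p : MvPolynomial (Option ({i | i ≠ a₀} : Set ι)) B) :
    psi A hmem a₀ g p = Polynomial.eval₂ (phi A hmem a₀ : _ →+* A) g
      (MvPolynomial.optionEquivLeft B ({i | i ≠ a₀} : Set ι) p) := by
  have h : (psi A hmem a₀ g : _ →+* A) =
      (Polynomial.eval₂RingHom (phi A hmem a₀ : _ →+* A) g).comp
        (MvPolynomial.optionEquivLeft B ({i | i ≠ a₀} : Set ι)).toAlgHom.toRingHom := by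
    apply MvPolynomial.ringHom_ext
    · intro c
      simp [psi, phi]
    · intro o
      cases o <;> simp [psi, phi]
  have := congrArg (fun F => F p) h
  exact this

/-- the existence of a relation modulo `Q` -/
theorem exists_rel (hx : IsTranscendenceBasis B x) (hmem : ∀ i, x i ∈ A) (a₀ : ι) {f : A}
    (hf0 : f ≠ 0) (g : A) (Q : Ideal A) (hfQ : f ∈ Q) :
    ∃ P : Polynomial (MvPolynomial ({i | i ≠ a₀} : Set ι) B), P ≠ 0 ∧
      Polynomial.eval₂ (phi A hmem a₀ : _ →+* A) g P ∈ Q := by
  classical
  by_contra hcon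
  push Not at hcon
  have hpsi : ∀ p : MvPolynomial (Option ({i | i ≠ a₀} : Set ι)) B, p ≠ 0 →
      psi A hmem a₀ g p ∉ Q := by
    intro p hp
    rw [psi_eq]
    exact hcon _ (by
      intro h0
      exact hp ((map_eq_zero_iff _ (MvPolynomial.optionEquivLeft B _).injective).1 h0))
  set y : Option ({i | i ≠ a₀} : Set ι) → Z :=
    fun o => o.elim (g : Z) (fun i : ({i | i ≠ a₀} : Set ι) => x i) with hy
  have hind : AlgebraicIndependent B y := by
    rw [algebraicIndependent_iff]
    intro p hp
    by_contra hne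
    apply hpsi p hne
    have h0 : psi A hmem a₀ g p = 0 := by
      apply Subtype.ext
      rw [coe_psi]
      exact hp
    rw [h0]
    exact Q.zero_mem
  have hcard : Fintype.card (Option ({i | i ≠ a₀} : Set ι)) = Fintype.card ι := by
    have h1 : Fintype.card ({i | i ≠ a₀} : Set ι) = Fintype.card {i // i ≠ a₀} := rfl
    have h2 : 0 < Fintype.card ι := Fintype.card_pos_iff.2 ⟨a₀⟩
    rw [Fintype.card_option, h1, Fintype.card_subtype_compl, Fintype.card_subtype_eq]
    omega
  have htb : IsTranscendenceBasis B y := by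
    refine hind.isTranscendenceBasis_of_lift_trdeg_le_of_finite ?_
    have h := hx.lift_cardinalMk_eq_trdeg
    rw [Cardinal.mk_fintype, Cardinal.lift_natCast] at h
    have h3 : Algebra.trdeg B Z = (Fintype.card ι : Cardinal) := by
      apply Cardinal.lift_injective
      rw [← h, Cardinal.lift_natCast]
    rw [h3, Cardinal.mk_fintype, hcard]
    simp
  haveI := htb.isAlgebraic
  have hfa : IsAlgebraic (Algebra.adjoin B (Set.range y)) (f : Z) :=
    Algebra.IsAlgebraic.isAlgebraic _
  have hfZ : (f : Z) ≠ 0 := fun h => hf0 (Subtype.ext h)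
  obtain ⟨q, hq0, hq⟩ := hfa.exists_nonzero_coeff_and_aeval_eq_zero
    (mem_nonZeroDivisors_of_ne_zero hfZ)
  have hRA : ∀ r : Algebra.adjoin B (Set.range y), (r : Z) ∈ A := by
    intro r
    refine (Algebra.adjoin_le (S := A) ?_) r.2
    rintro _ ⟨o, rfl⟩
    cases o with
    | none => exact g.2
    | some i => exact hmem i
  have hq1 : (q.coeff 0 : Z) = -(f : Z) * Polynomial.aeval (f : Z) q.divX := by
    have h4 : Polynomial.aeval (f : Z) q = Polynomial.aeval (f : Z) q.divX * (f : Z) +
        (q.coeff 0 : Z) := by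
      conv_lhs => rw [← Polynomial.divX_mul_X_add q]
      rw [map_add, map_mul, Polynomial.aeval_X, Polynomial.aeval_C]
      rfl
    rw [hq] at h4
    linear_combination -h4
  have hdA : Polynomial.aeval (f : Z) q.divX ∈ A := by
    rw [Polynomial.aeval_eq_sum_range]
    refine A.sum_mem fun i _ => ?_
    rw [Algebra.smul_def]
    exact A.mul_mem (hRA _) (A.pow_mem f.2 _)
  have hcQ : (⟨(q.coeff 0 : Z), hRA _⟩ : A) ∈ Q := by
    have h5 : (⟨(q.coeff 0 : Z), hRA _⟩ : A) = -(⟨_, hdA⟩ : A) * f := by
      apply Subtype.ext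
      change (q.coeff 0 : Z) = -(Polynomial.aeval (f : Z) q.divX) * (f : Z)
      rw [hq1]
      ring
    rw [h5]
    exact Q.mul_mem_left _ hfQ
  obtain ⟨p, hp⟩ : ∃ p : MvPolynomial (Option ({i | i ≠ a₀} : Set ι)) B,
      MvPolynomial.aeval y p = (q.coeff 0 : Z) := by
    have h6 := (q.coeff 0).2
    have h8 : ∀ z : Z, z ∈ Algebra.adjoin B (Set.range y) →
        ∃ p : MvPolynomial (Option ({i | i ≠ a₀} : Set ι)) B, MvPolynomial.aeval y p = z := by
      intro z hz
      rw [Algebra.adjoin_range_eq_range_aeval] at hz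
      exact hz
    exact h8 _ h6
  have hp0 : p ≠ 0 := by
    rintro rfl
    rw [map_zero] at hp
    exact hq0 (Subtype.ext hp.symm)
  apply hpsi p hp0
  have h7 : psi A hmem a₀ g p = (⟨(q.coeff 0 : Z), hRA _⟩ : A) := by
    apply Subtype.ext
    rw [coe_psi]
    exact hp
  rw [h7]
  exact hcQ

end CenterMinAux

open CenterMinAux in
theorem center_minimal [Algebra.EssFiniteType B Z] (h : Chart hx A) {v : Valuation Z ℤᵐ⁰}
    (hv : IsDivisorial B Z v) (hr : RegBasis B v x) (hA : ∀ a ∈ A, v a ≤ 1) {f : A}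
    (hf0 : f ≠ 0) (hf : v (f : Z) < 1) :
    center A v hA ∈ (Ideal.span {f}).minimalPrimes := by
  classical
  have hconst := hv.const
  obtain ⟨t, ht⟩ := exists_unif v hv.nontrivial
  obtain ⟨a₀, ha₀⟩ := exists_dir (hx := hx) hv hr ht
  have hle : ∀ a z, v z ≤ 1 → v (pd hx a z) ≤ 1 := fun a z hz => hr.der a z hz
  have hprime : (center A v hA).IsPrime := by
    refine ⟨?_, ?_⟩
    · intro htop
      have h1 : (1 : A) ∈ center A v hA := by rw [htop]; trivial
      rw [mem_center, OneMemClass.coe_one, map_one] at h1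
      exact lt_irrefl _ h1
    · intro a b hab
      rw [mem_center, MulMemClass.coe_mul, map_mul] at hab
      rw [mem_center, mem_center]
      by_contra hcon
      push Not at hcon
      have h1 := le_antisymm (hA _ a.2) hcon.1
      have h2 := le_antisymm (hA _ b.2) hcon.2
      rw [h1, h2, one_mul] at hab
      exact lt_irrefl _ hab
  refine ⟨⟨hprime, ?_⟩, ?_⟩
  · rw [Ideal.span_le, Set.singleton_subset_iff]
    exact hf
  · rintro Q ⟨hQ, hfQ⟩ hQp
    have hfQ' : f ∈ Q := hfQ (Ideal.mem_span_singleton_self f)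
    intro g hg
    by_contra hgQ
    -- there is no nonzero relation modulo `Q`
    have key : ∀ n : ℕ, ∀ P : Polynomial (MvPolynomial ({i | i ≠ a₀} : Set ι) B),
        P.natDegree = n → P ≠ 0 → Polynomial.eval₂ (phi A h.mem a₀ : _ →+* A) g P ∉ Q := by
      intro n
      induction n using Nat.strong_induction_on with
      | _ n ih =>
        intro P hPn hP0 hPQ
        have hdiv : Polynomial.eval₂ (phi A h.mem a₀ : _ →+* A) g P =
            Polynomial.eval₂ (phi A h.mem a₀ : _ →+* A) g P.divX * g +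
              phi A h.mem a₀ (P.coeff 0) := by
          conv_lhs => rw [← Polynomial.divX_mul_X_add P]
          rw [Polynomial.eval₂_add, Polynomial.eval₂_mul, Polynomial.eval₂_X, Polynomial.eval₂_C]
          rfl
        by_cases hc : P.coeff 0 = 0
        · rw [hc, map_zero, add_zero] at hdiv
          rw [hdiv] at hPQ
          have h1 := (hQ.mem_or_mem hPQ).resolve_right hgQ
          have hdX : P.divX ≠ 0 := by
            intro h0
            apply hP0
            rw [← Polynomial.divX_mul_X_add P, h0, hc]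
            simp
          have hdeg : P.divX.natDegree < n := by
            rw [Polynomial.natDegree_divX_eq_natDegree_tsub_one, hPn]
            have : n ≠ 0 := by
              rintro rfl
              have h2 := Polynomial.eq_C_of_natDegree_eq_zero hPn
              rw [hc, map_zero] at h2
              exact hP0 h2
            omega
          exact ih _ hdeg _ rfl hdX h1
        · have h1 : phi A h.mem a₀ (P.coeff 0) ∈ center A v hA := by
            have h2 : phi A h.mem a₀ (P.coeff 0) =
                Polynomial.eval₂ (phi A h.mem a₀ : _ →+* A) g P -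
                  Polynomial.eval₂ (phi A h.mem a₀ : _ →+* A) g P.divX * g := by
              rw [hdiv]; ring
            rw [h2]
            exact Ideal.sub_mem _ (hQp hPQ) (Ideal.mul_mem_left _ _ hg)
          rw [mem_center, coe_phi, val_poly hconst hle hA h.mem ht ha₀ _ _ rfl hc] at h1
          exact lt_irrefl _ h1
    obtain ⟨P, hP0, hPQ⟩ := exists_rel hx h.mem a₀ hf0 g Q hfQ'
    exact key _ P rfl hP0 hPQ

end Pf72953.Br
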