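import Mathlib
import Pool.Agent.Lib.Pf72953.Core
import Pool.Agent.Lib.Pf72953m.Defs

/-!
Isotrivial fibre spaces over a constant variety: the branch divisors.

`B ⊆ Z`, `Y = k(M) ⊆ Z`, `Z` is the compositum of `B` and `Y` (the function field of `M` over `B`), `P/Z` is
finite.
-/

set_option autoImplicit false
set_option linter.style.haveILetI false

open scoped WithZero
open Pf72953 Pf72953.Mov

namespace Pf72953.Br

/-- The valuation `w` of `K ⊇ Z` has a uniformizer in `Z` (or is trivial): `K/Z` is unramified at `w`. -/
def Unr (Z : Type*) {K : Type*} [Field Z] [Field K] [Algebra Z K] (w : Valuation K ℤᵐ⁰) : Prop :=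
  ∀ z : K, w z < 1 → ∃ t : Z, w (algebraMap Z K t) < 1 ∧ w z ≤ w (algebraMap Z K t)

/-- The valuation `w` of `K ⊇ Z`, `Z = B·k(M)`, is centred on the chart `i` of the smooth model `M` over
`B`, and its restriction to `Z` is a prime divisor of the chart (and not an exceptional divisor over it):
a vector field over `B` which is regular on the étale coordinates is regular at `w`. -/
structure PrimeAt {k Y : Type*} [Field k] [Field Y] [Algebra k Y] (M : SmoothModel k Y) (B Z : Type*)
    {K : Type*} [Field B] [Field Z] [Field K] [Algebra B Z] [Algebra Y Z] [Algebra Z K] [Algebra Y K]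
    (i : M.I) (w : Valuation K ℤᵐ⁰) : Prop where
  center : ∀ f ∈ M.A i, w (algebraMap Y K f) ≤ 1
  der : ∀ d : Derivation B Z Z, (∀ a, w (algebraMap Z K (d (algebraMap Y Z (M.x i a)))) ≤ 1) →
    ∀ z : Z, w (algebraMap Z K z) ≤ 1 → w (algebraMap Z K (d z)) ≤ 1

section branch

variable {k Y : Type*} [Field k] [Field Y] [Algebra k Y] {M : SmoothModel k Y} {B P : Type*}
  [Field B] [Field P] [Algebra k P] [Algebra B P] [Algebra Y P]

/-- `w` is a divisorial valuation of `P/k`, trivial on `B`, over a prime divisor of the chart `i` of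
`M` over `B`, and `P/Z` is ramified at `w`. -/
structure Bad (k : Type*) {Y : Type*} [Field k] [Field Y] [Algebra k Y] (M : SmoothModel k Y)
    (B Z : Type*) {P : Type*} [Field B] [Field Z] [Field P] [Algebra k P] [Algebra B P]
    [Algebra B Z] [Algebra Y Z] [Algebra Z P] [Algebra Y P] (i : M.I) (w : Valuation P ℤᵐ⁰) :
    Prop where
  div : IsDivisorial k P w
  triv : ∀ b : B, b ≠ 0 → w (algebraMap B P b) = 1
  prime : PrimeAt M B Z i w
  ram : ¬ Unr Z w

/-- The support of the divisor `D` on `M` over `B` is contained in (the conjugates over `B` of) a prime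
divisor: all valuations of `P` over a prime divisor contained in the support of `D` restrict to the
same valuation of `Z` (up to equivalence), namely to that of `w`. -/
def SuppOn (k : Type*) {Y : Type*} [Field k] [Field Y] [Algebra k Y] {M : SmoothModel k Y}
    {B : Type*} (Z : Type*) {P : Type*} [Field B] [Field Z] [Field P] [Algebra k P] [Algebra B P]
    [Algebra B Z] [Algebra Y Z] [Algebra Z P] [Algebra Y P] (D : MovingDivisor M B P)
    (w : Valuation P ℤᵐ⁰) : Prop :=
  ∀ (w' : Valuation P ℤᵐ⁰) (i : M.I), IsDivisorial k P w' →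
    (∀ b : B, b ≠ 0 → w' (algebraMap B P b) = 1) → PrimeAt M B Z i w' →
    w' D.sec < w' (algebraMap Y P (D.S.gen i)) →
    ∀ z : Z, w' (algebraMap Z P z) ≤ 1 ↔ w (algebraMap Z P z) ≤ 1

/-- `D` is a branch divisor of `P/Z`: it is supported on (the conjugates of) a prime divisor over
which `P` is ramified. -/
def IsBranch (k : Type*) {Y : Type*} [Field k] [Field Y] [Algebra k Y] {M : SmoothModel k Y}
    {B : Type*} (Z : Type*) {P : Type*} [Field B] [Field Z] [Field P] [Algebra k P] [Algebra B P]
    [Algebra B Z] [Algebra Y Z] [Algebra Z P] [Algebra Y P] (D : MovingDivisor M B P) : Prop :=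
  ∃ (i : M.I) (w : Valuation P ℤᵐ⁰), Bad k M B Z i w ∧
    w D.sec < w (algebraMap Y P (D.S.gen i)) ∧ SuppOn k Z D w

/-- Every prime divisor of `M` over `B` over which `P` is ramified is the support of a divisor which
moves in a linear system on `M` (this is automatic if all line bundles on `M` over the algebraic closure
of `B` are constant, i.e. if `q(M) = 0`). -/
def BranchMoves (k : Type*) {Y : Type*} [Field k] [Field Y] [Algebra k Y] (M : SmoothModel k Y)
    (B Z P : Type*) [Field B] [Field Z] [Field P] [Algebra k P] [Algebra B P]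
    [Algebra B Z] [Algebra Y Z] [Algebra Z P] [Algebra Y P] : Prop :=
  ∀ (i : M.I) (w : Valuation P ℤᵐ⁰), Bad k M B Z i w →
    ∃ D : MovingDivisor M B P, w D.sec < w (algebraMap Y P (D.S.gen i)) ∧ SuppOn k Z D w

/-- the variation of the branch divisors: the transcendence degree of the field generated by the
ratios of their coefficients -/
noncomputable def branchVar (k : Type*) {Y : Type*} [Field k] [Field Y] [Algebra k Y]
    (M : SmoothModel k Y) (B Z P : Type*) [Field B] [Field Z] [Field P] [Algebra k P] [Algebra B P]
    [Algebra B Z] [Algebra Y Z] [Algebra Z P] [Algebra Y P] : ℕ :=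
  dimension k (IntermediateField.adjoin k
    {θ : P | ∃ D : MovingDivisor M B P, IsBranch k Z D ∧ θ ∈ D.ratios})

end branch

end Pf72953.Br
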