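import Mathlib
import Pool.Agent.Lib.Pf72953b.Defs
import Pool.Agent.Lib.Pf72953b.CenterDef
import Pool.Agent.Lib.Pf72953u.Chart

/-!
MODULE Pf72953b.Disc: outside the zero set of a discriminant a finite extension is unramified at the prime divisors of a
smooth chart.

PROOF.  `P = Z(β)` (`Field.exists_primitive_element`); multiplying `β` by a nonzero element of `A` (common denominator of the
coefficients of its minimal polynomial; `Z = Frac A` by `Chart.frac`) we may assume that `f = minpoly Z β` is the image of a monic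
`f₀ ∈ A[X]`.  `f` is separable: `u f + v f' = 1` in `Z[X]`; clear denominators: `u₀ f₀ + v₀ f₀' = δ`, `δ ∈ A`, `δ ≠ 0`,
`u₀, v₀ ∈ A[X]`; evaluate at `β`: `v₀(β) f'(β) = δ`.
Let `w` be as in the statement with `w δ = 1`.  `β` is integral over `A`, so `w (g(β)) ≤ 1` for all `g ∈ A[X]`
(`val_le_one_of_isIntegral`: `A` maps to the valuation ring `R` of `w` in `Z`), hence `w (f'(β)) = 1`.
`x_P = (algebraMap Z P (x i))` is a transcendence basis of `P/B` (`IsTranscendenceBasis.algebraMap_comp`); `D a = pd x_P a`
extends `∂_a = pd hx a` (`pd_algebraMap`), which preserves the valuation ring of `w` in `Z` (`hr.der`), so `D a` preserves `O_w`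
(`der_le_one_of_etale`, Unram.lean, with `E := Z`, `L := P`, the hypothesis on `aeval β (derivative (minpoly Z β))`).
Let `t ∈ Z` be a uniformizer of `w` restricted to `Z` (`exists_unif`), `a` with `w (∂_a t) = 1` (`exists_dir`).  `isUnif_of_der` for the
derivation `(∂_a t)⁻¹ • D a` of `P` and `π = t` says that `t` is a uniformizer of `w`.  This is `Unr Z w`.
-/

set_option autoImplicit false
set_option linter.style.haveILetI false

open scoped WithZero
open Pf72953 Pf72953.Up

namespace Pf72953.Br

namespace DiscAux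

open Polynomial

theorem isFractionRing {B Z ι : Type*} [Field B] [CharZero B] [Field Z] [Algebra B Z]
    {x : ι → Z} {hx : IsTranscendenceBasis B x} {A : Subalgebra B Z} (h : Chart hx A) :
    IsFractionRing A Z := by
  refine IsFractionRing.of_field A Z ?_
  intro z
  obtain ⟨g, hg, k, hk, _, hz⟩ := h.frac z
  exact ⟨⟨g, hg⟩, ⟨k, hk⟩, hz⟩

theorem isAlgebraic_of_frac {B Z P : Type*} [Field B] [Field Z] [Field P] [Algebra B Z]
    [Algebra Z P] [FiniteDimensional Z P] (A : Subalgebra B Z) [IsFractionRing A Z] :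
    Algebra.IsAlgebraic A P := by
  haveI : Algebra.IsAlgebraic A Z := IsLocalization.isAlgebraic Z (nonZeroDivisors A)
  exact Algebra.IsAlgebraic.trans A Z P

theorem exists_mul_isIntegral {B Z P : Type*} [Field B] [Field Z] [Field P] [Algebra B Z]
    [Algebra Z P] (A : Subalgebra B Z) [Algebra.IsAlgebraic A P] (b : P) :
    ∃ a : A, a ≠ 0 ∧ IsIntegral A (algebraMap Z P (a : Z) * b) := by
  obtain ⟨y, hy, h⟩ := (Algebra.IsAlgebraic.isAlgebraic (R := A) b).exists_integral_multiple
  refine ⟨y, hy, ?_⟩
  rw [Algebra.smul_def] at h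
  exact h

theorem isIntegral_of_le {B Z P : Type*} [Field B] [Field Z] [Field P] [Algebra B Z]
    [Algebra Z P] (A : Subalgebra B Z) (w : Valuation P ℤᵐ⁰)
    (hA : ∀ a ∈ A, w (algebraMap Z P a) ≤ 1) {b : P} (hb : IsIntegral A b) :
    IsIntegral (w.comap (algebraMap Z P)).valuationSubring b := by
  have hAR : ∀ a : A, algebraMap A Z a ∈ (w.comap (algebraMap Z P)).valuationSubring :=
    fun a => hA a a.2
  letI : Algebra A (w.comap (algebraMap Z P)).valuationSubring :=
    ((algebraMap A Z).codRestrict (w.comap (algebraMap Z P)).valuationSubring hAR).toAlgebra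
  haveI : IsScalarTower A (w.comap (algebraMap Z P)).valuationSubring P :=
    IsScalarTower.of_algebraMap_eq fun _ => rfl
  exact hb.tower_top

end DiscAux

open Polynomial in
theorem exists_disc {B Z P ι : Type*} [Field B] [CharZero B] [Field Z] [Field P] [Algebra B Z]
    [Algebra B P] [Algebra Z P] [IsScalarTower B Z P] [Algebra.EssFiniteType B Z]
    [FiniteDimensional Z P] [Fintype ι] [DecidableEq ι] {x : ι → Z}
    {hx : IsTranscendenceBasis B x} {A : Subalgebra B Z} (h : Chart hx A) :
    ∃ δ : A, δ ≠ 0 ∧ ∀ w : Valuation P ℤᵐ⁰, IsDivisorial B Z (w.comap (algebraMap Z P)) →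
      (∀ a ∈ A, w (algebraMap Z P a) ≤ 1) → RegBasis B (w.comap (algebraMap Z P)) x →
      w (algebraMap Z P (δ : Z)) = 1 → Unr Z w := by
  classical
  haveI : CharZero Z := charZero_of_injective_algebraMap (algebraMap B Z).injective
  haveI hfr : IsFractionRing A Z := DiscAux.isFractionRing h
  haveI : Algebra.IsAlgebraic A P := DiscAux.isAlgebraic_of_frac A
  obtain ⟨β₀, hβ₀⟩ := Field.exists_primitive_element Z P
  obtain ⟨a, ha0, ha⟩ := DiscAux.exists_mul_isIntegral A β₀
  set β : P := algebraMap Z P (a : Z) * β₀ with hβdef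
  have haZ : (a : Z) ≠ 0 := by simpa using ha0
  have haP : algebraMap Z P (a : Z) ≠ 0 := by
    rw [Ne, map_eq_zero]; exact haZ
  have hβ : IntermediateField.adjoin Z {β} = ⊤ := by
    rw [eq_top_iff, ← hβ₀, IntermediateField.adjoin_simple_le_iff]
    have h1 : β ∈ IntermediateField.adjoin Z {β} := IntermediateField.mem_adjoin_simple_self Z β
    have h2 : algebraMap Z P (a : Z)⁻¹ ∈ IntermediateField.adjoin Z {β} :=
      (IntermediateField.adjoin Z {β}).algebraMap_mem _
    have h3 := (IntermediateField.adjoin Z {β}).mul_mem h2 h1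
    have h4 : algebraMap Z P (a : Z)⁻¹ * β = β₀ := by
      rw [hβdef, map_inv₀, ← mul_assoc, inv_mul_cancel₀ haP, one_mul]
    rwa [h4] at h3
  have hne : aeval β (derivative (minpoly Z β)) ≠ 0 := by
    have hsep : (minpoly Z β).Separable := (minpoly.irreducible (Algebra.IsIntegral.isIntegral β)).separable
    exact hsep.aeval_derivative_ne_zero (minpoly.aeval Z β)
  obtain ⟨δ, hδ0, hδ⟩ := DiscAux.exists_mul_isIntegral A (aeval β (derivative (minpoly Z β)))⁻¹
  refine ⟨δ, hδ0, fun w hdiv hA hr hw => ?_⟩
  set R := (w.comap (algebraMap Z P)).valuationSubring with hR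
  have hAR : ∀ b : P, IsIntegral A b → IsIntegral R b := fun b hb =>
    DiscAux.isIntegral_of_le A w hA hb
  have hint : IsIntegral R β := hAR β ha
  have hmin : minpoly Z β = (minpoly R β).map (algebraMap R Z) :=
    minpoly.isIntegrallyClosed_eq_field_fractions' Z hint
  have hder' : aeval β (derivative (minpoly Z β)) = aeval β (derivative (minpoly R β)) := by
    rw [hmin, derivative_map, aeval_map_algebraMap]
  have hle : w (aeval β (derivative (minpoly Z β))) ≤ 1 := by
    rw [hder']
    exact val_le_one_of_isIntegral w (by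
      refine IsIntegral.of_mem_of_fg (Algebra.adjoin R {β}) hint.fg_adjoin_singleton _ ?_
      exact aeval_mem_adjoin_singleton R β)
  have hder : w (aeval β (derivative (minpoly Z β))) = 1 := by
    refine le_antisymm hle ?_
    have h1 : w (algebraMap Z P (δ : Z) * (aeval β (derivative (minpoly Z β)))⁻¹) ≤ 1 :=
      val_le_one_of_isIntegral w (hAR _ hδ)
    rw [map_mul, hw, one_mul, map_inv₀] at h1
    have h0 : w (aeval β (derivative (minpoly Z β))) ≠ 0 := (Valuation.ne_zero_iff w).mpr hne
    exact (inv_le_one₀ (zero_lt_iff.mpr h0)).mp h1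
  obtain ⟨t, ht⟩ := exists_unif (w.comap (algebraMap Z P)) hdiv.nontrivial
  obtain ⟨a', ha'⟩ := exists_dir (hx := hr.tb) hdiv hr ht
  have htbL : IsTranscendenceBasis B (fun i => algebraMap Z P (x i)) :=
    hr.tb.algebraMap_comp
  have hmap : ∀ z : Z, pd htbL a' (algebraMap Z P z) = algebraMap Z P (pd hr.tb a' z) := by
    intro z
    exact pd_algebraMap hr.tb htbL id Function.injective_id (fun _ => rfl) a' z
  have hDL : ∀ z : P, w z ≤ 1 → w (pd htbL a' z) ≤ 1 := fun z hz =>
    der_le_one_of_etale w (pd htbL a') (fun e he => by rw [hmap]; exact hr.der a' e he) β hβ hint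
      hder hz
  have hu0 : pd hr.tb a' t ≠ 0 := by
    intro h0
    rw [h0, map_zero] at ha'
    exact zero_ne_one ha'
  have hwu : w (algebraMap Z P (pd hr.tb a' t)⁻¹) = 1 := by
    have : (w.comap (algebraMap Z P)) (pd hr.tb a' t)⁻¹ = 1 := by
      rw [map_inv₀, ha', inv_one]
    exact this
  have hun : IsUnif w (algebraMap Z P t) := by
    refine isUnif_of_der w (algebraMap Z P (pd hr.tb a' t)⁻¹ • pd htbL a') (fun z hz => ?_)
      (by simpa using ht.ne_zero) ht.lt_one ?_
    · rw [Derivation.smul_apply, smul_eq_mul, map_mul, hwu, one_mul]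
      exact hDL z hz
    · rw [Derivation.smul_apply, smul_eq_mul, hmap, ← map_mul, inv_mul_cancel₀ hu0, map_one]
  exact fun z hz => ⟨t, hun.lt_one, hun.le z hz⟩

end Pf72953.Br
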