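import Mathlib
import Pool.Agent.Lib.Pf72953b.Defs
import Pool.Agent.Lib.Pf72953b.CenterEq
import Pool.Agent.Lib.Pf72953b.CenterMin
import Pool.Agent.Lib.Pf72953b.Disc
import Pool.Agent.Lib.Pf72953m.Over
import Pool.Agent.Lib.Pf72953u.Main

/-!
MODULE Pf72953b.FinBad: there are only finitely many prime divisors of `M` over `B` over which `P` is ramified.

PROOF.  `PrimeAt.regBasis`: `pd hx a ∈ Der_B(Z)` satisfies `pd hx a (x_b) = δ_ab` (`pd_self`), of value `≤ 1`, so it preserves the valuation
ring by `h.der`; `x_b` has value `≤ 1` by `h.center` (`M.mem`).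
`bad_facts`: for `Bad k M B Z i w`: `w` is nontrivial on `Z` (`P/Z` algebraic, `val_eq_one_of_isIntegral`), `w.comap (algebraMap Z P)` is
divisorial over `k` (`IsDivisorial.restrict`), hence over `B` (`Pf72953.Mov.IsDivisorial.over`, `FinTrdeg k Z` from `EssFiniteType`); it is
`≤ 1` on `bc B Z (M.A i)` (generated by `B`, on which `w` is trivial, and the image of `M.A i`; `Algebra.adjoin_induction`).
`exists_finite`: for every chart `i`, `A_i = bc B Z (M.A i)` is a chart of `Z/B` (`(chart_of_model M i).baseChange (hx i) hgen`,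
Pf72953u/BaseCh.lean, Main.lean; `κ := B`, `K := Z`); let `δ_i` be the element of `exists_disc`.  For `Bad k M B Z i w` the value of `δ_i` is not
`1` (otherwise `Unr Z w`), so it is `< 1`, and `center A_i (w|Z)` is in `(Ideal.span {δ_i}).minimalPrimes` (`center_minimal`), a finite
set (`Ideal.finite_minimalPrimes_of_isNoetherianRing`; `A_i` is noetherian: `Chart.isNoetherian`).  So the pairs
`(i, center A_i (w|Z))` of all bad `(i, w)` form a finite set (`M.finite`); choose a bad representative for every pair which occurs,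
enumerate them by `Fin n`; two bad `w, w'` with the same pair have the same valuation ring in `Z` by `center_eq`.
-/

set_option autoImplicit false
set_option linter.style.haveILetI false

open scoped WithZero
open Pf72953 Pf72953.Mov Pf72953.Up

namespace Pf72953.Br

variable {k B Y Z P : Type*} [Field k] [CharZero k] [Field B] [Field Y] [Field Z] [Field P]
  [Algebra k B] [Algebra k Y] [Algebra k Z] [Algebra k P] [Algebra B Z] [Algebra B P]
  [Algebra Y Z] [Algebra Y P] [Algebra Z P]
  [IsScalarTower k B Z] [IsScalarTower k B P] [IsScalarTower k Y Z] [IsScalarTower k Y P]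
  [IsScalarTower k Z P] [IsScalarTower B Z P] [IsScalarTower Y Z P]

theorem PrimeAt.regBasis [CharZero B] {M : SmoothModel k Y} {i : M.I} {w : Valuation P ℤᵐ⁰}
    (h : PrimeAt M B Z i w) (hx : IsTranscendenceBasis B (fun a => algebraMap Y Z (M.x i a))) :
    RegBasis B (w.comap (algebraMap Z P)) (fun a => algebraMap Y Z (M.x i a)) := by
  refine ⟨hx, fun a => ?_, fun a z hz => ?_⟩
  · rw [Valuation.comap_apply, ← IsScalarTower.algebraMap_apply Y Z P]
    exact h.center _ (M.mem i a)
  · rw [Valuation.comap_apply] at hz ⊢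
    refine h.der (pd hx a) (fun b => ?_) z hz
    have h1 := pd_self hx a b
    rw [h1]
    split_ifs
    · rw [map_one, map_one]
    · rw [map_zero, map_zero]
      exact zero_le_one

namespace FinBadAux

theorem nontriv [FiniteDimensional Z P] {w : Valuation P ℤᵐ⁰} (hw : IsDivisorial k P w) :
    ∃ a : Z, a ≠ 0 ∧ w (algebraMap Z P a) ≠ 1 := by
  by_contra hcon
  push Not at hcon
  obtain ⟨a, ha0, ha1⟩ := hw.nontrivial
  exact ha1 (val_eq_one_of_isIntegral (B := Z) hcon ha0 (Algebra.IsIntegral.isIntegral a))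

theorem div_over [Algebra.EssFiniteType k Z] [FiniteDimensional Z P] {M : SmoothModel k Y}
    {i : M.I} {w : Valuation P ℤᵐ⁰} (h : Bad k M B Z i w) :
    IsDivisorial B Z (w.comap (algebraMap Z P)) := by
  haveI : Algebra.EssFiniteType k P := Algebra.EssFiniteType.comp k Z P
  have h1 : IsDivisorial k Z (w.comap (algebraMap Z P)) := h.div.restrict (nontriv h.div)
  refine Pf72953.Mov.IsDivisorial.over h1 fun b hb => ?_
  rw [Valuation.comap_apply, ← IsScalarTower.algebraMap_apply B Z P]
  exact h.triv b hb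

theorem le_bc {M : SmoothModel k Y} {i : M.I} {w : Valuation P ℤᵐ⁰} (h : Bad k M B Z i w) :
    ∀ a ∈ bc B Z (M.A i), w.comap (algebraMap Z P) a ≤ 1 := by
  intro a ha
  induction ha using Algebra.adjoin_induction with
  | mem x hx =>
    obtain ⟨y, hy, rfl⟩ := hx
    rw [Valuation.comap_apply, ← IsScalarTower.algebraMap_apply Y Z P]
    exact h.prime.center y hy
  | algebraMap r =>
    rw [Valuation.comap_apply, ← IsScalarTower.algebraMap_apply B Z P]
    rcases eq_or_ne r 0 with rfl | hr
    · simp
    · exact (h.triv r hr).le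
  | add x y _ _ hx hy =>
    exact (Valuation.map_add _ _ _).trans (max_le hx hy)
  | mul x y _ _ hx hy =>
    rw [map_mul]
    exact mul_le_one' hx hy

end FinBadAux

open FinBadAux

theorem exists_finite [CharZero B] [Algebra.EssFiniteType k B] [Algebra.EssFiniteType k Y]
    [Algebra.EssFiniteType k Z]
    [FiniteDimensional Z P] (M : SmoothModel k Y)
    (hx : ∀ i, IsTranscendenceBasis B (fun a => algebraMap Y Z (M.x i a)))
    (hgen : ∀ z : Z, z ∈ IntermediateField.adjoin B (Set.range (algebraMap Y Z))) :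
    ∃ (n : ℕ) (T : Fin n → Valuation P ℤᵐ⁰) (I : Fin n → M.I),
      (∀ j, Bad k M B Z (I j) (T j)) ∧
      ∀ (i : M.I) (w : Valuation P ℤᵐ⁰), Bad k M B Z i w →
        ∃ j, ∀ z : Z, w (algebraMap Z P z) ≤ 1 ↔ T j (algebraMap Z P z) ≤ 1 := by
  classical
  haveI : Algebra.EssFiniteType B Z := Algebra.EssFiniteType.of_comp k B Z
  haveI := M.finite
  have hch : ∀ i, Chart (hx i) (bc B Z (M.A i)) := fun i =>
    (chart_of_model M i).baseChange (hx i) hgen
  -- the centres of the bad valuations
  let C : ∀ i : M.I, Set (Ideal (bc B Z (M.A i))) := fun i =>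
    {p | ∃ (w : Valuation P ℤᵐ⁰) (hb : Bad k M B Z i w),
      p = center (bc B Z (M.A i)) (w.comap (algebraMap Z P)) (le_bc hb)}
  have hfin : ∀ i, (C i).Finite := by
    intro i
    obtain ⟨δ, hδ0, hδ⟩ := exists_disc (P := P) (hch i)
    haveI := (hch i).isNoetherian
    refine (Ideal.finite_minimalPrimes_of_isNoetherianRing (bc B Z (M.A i))
      (Ideal.span {δ})).subset ?_
    rintro p ⟨w, hb, rfl⟩
    have hne : w (algebraMap Z P (δ : Z)) ≠ 1 := fun h1 =>
      hb.ram (hδ w (div_over hb) (fun a ha => le_bc hb a ha) (hb.prime.regBasis (hx i)) h1)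
    have hlt : (w.comap (algebraMap Z P)) (δ : Z) < 1 :=
      lt_of_le_of_ne (le_bc hb _ δ.2) hne
    exact center_minimal (hch i) (div_over hb) (hb.prime.regBasis (hx i)) (le_bc hb) hδ0 hlt
  haveI : ∀ i, Finite (C i) := fun i => (hfin i).to_subtype
  haveI : Finite (Σ i, C i) := inferInstance
  let e := Finite.equivFin (Σ i, C i)
  let T : (Σ i, C i) → Valuation P ℤᵐ⁰ := fun s => s.2.2.choose
  have hT : ∀ s : (Σ i, C i), Bad k M B Z s.1 (T s) := fun s => s.2.2.choose_spec.choose
  refine ⟨Nat.card (Σ i, C i), fun j => T (e.symm j), fun j => (e.symm j).1,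
    fun j => hT (e.symm j), fun i w hb => ?_⟩
  let s : (Σ i, C i) := ⟨i, ⟨center (bc B Z (M.A i)) (w.comap (algebraMap Z P)) (le_bc hb),
    w, hb, rfl⟩⟩
  refine ⟨e s, fun z => ?_⟩
  simp only [Equiv.symm_apply_apply]
  have hs : Bad k M B Z i (T s) := hT s
  have heq : center (bc B Z (M.A i)) (w.comap (algebraMap Z P)) (le_bc hb) =
      center (bc B Z (M.A i)) ((T s).comap (algebraMap Z P)) (le_bc hs) :=
    s.2.2.choose_spec.choose_spec
  exact center_eq (hch i) (div_over hb) (div_over hs) (hb.prime.regBasis (hx i))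
    (hs.prime.regBasis (hx i)) (le_bc hb) (le_bc hs) heq z

end Pf72953.Br
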