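import Pool.Agent.Lib.Pf72953.Unram
import Pool.Agent.Lib.Pf72953.Quot
import Mathlib
import Pool.Agent.Lib.Pf72953b.Defs

/-!
MODULE Pf72953b.GalConj: in a Galois extension all places over a given place are conjugate, so if one is unramified
then all are.

PROOF.  `exists_conj`: let `R` be the valuation ring of `w` restricted to `Z` (`(w.comap (algebraMap Z P)).valuationSubring`,
the same as for `w'`), `S` the integral closure of `R` in `P`.  `S` is contained in the valuation rings of `w` and `w'`
(`val_le_one_of_isIntegral`, Unram.lean).  The ideals `m_w ∩ S`, `m_{w'} ∩ S` are maximal (lie over the maximal ideal of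
`R`, `R → S` integral), and the Galois group acts transitively on the primes of `S` over the maximal ideal of `R`
(Mathlib: `Algebra.IsInvariant.exists_smul_of_under_eq` or `Ideal.exists_map_eq_of_isGalois`-type lemmas; or directly: if
`m_{w'} ∩ S` is not contained in any `σ (m_w ∩ S)`, prime avoidance gives `z ∈ m_{w'} ∩ S` outside all of them, and the
norm `∏ σ z ∈ Z` has `w' < 1` and `w = 1`, contradiction).  So for some `σ`: `m_{w'} ∩ S = σ⁻¹ (m_w ∩ S)` i.e.
`w' z < 1 ↔ w (σ z) < 1` for `z ∈ S`.  Every `z ∈ P` with `w z ≤ 1` is `a / b`, `a, b ∈ S`, `w b = 1`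
(`exists_isIntegral_quotient`, Quot.lean).  Hence `w (σ z) ≤ 1 ↔ w' z ≤ 1` for all `z`: the valuations `w ∘ σ` and `w'`
are equivalent.
`unr_of_conj`: `Unr` only depends on the equivalence class (`Valuation.IsEquiv`; the conditions `w z < 1`, `w z ≤ w t`)
and is invariant under `σ` (`σ` fixes `Z`): if `w' z < 1` then `w (σ z) < 1`, so there is `t ∈ Z` with `w t < 1`,
`w (σ z) ≤ w t = w (σ t)`, whence `w' t < 1`, `w' z ≤ w' t`.
-/

set_option autoImplicit false
set_option linter.style.haveILetI false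

open scoped WithZero
open Pf72953

namespace Pf72953.Br

namespace GalConjAux

/-- the elements of value less than one of a ring of elements of value at most one -/
def mIdeal {R P : Type*} [CommRing R] [Field P] [Algebra R P] (w : Valuation P ℤᵐ⁰)
    (hw : ∀ z ∈ integralClosure R P, w z ≤ 1) : Ideal (integralClosure R P) where
  carrier := {z | w (z : P) < 1}
  add_mem' := by
    intro a b ha hb
    exact Valuation.map_add_lt w ha hb
  zero_mem' := by
    change w ((0 : integralClosure R P) : P) < 1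
    rw [ZeroMemClass.coe_zero, map_zero]
    exact zero_lt_one
  smul_mem' := by
    intro c x hx
    change w ((c * x : integralClosure R P) : P) < 1
    rw [MulMemClass.coe_mul, map_mul]
    calc w (c : P) * w (x : P) ≤ 1 * w (x : P) := mul_le_mul_left (hw c c.2) _
      _ < 1 := by rw [one_mul]; exact hx

theorem mem_mIdeal {R P : Type*} [CommRing R] [Field P] [Algebra R P] {w : Valuation P ℤᵐ⁰}
    (hw : ∀ z ∈ integralClosure R P, w z ≤ 1) {z : integralClosure R P} :
    z ∈ mIdeal w hw ↔ w (z : P) < 1 := Iff.rfl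

instance prime_mIdeal {R P : Type*} [CommRing R] [Field P] [Algebra R P] {w : Valuation P ℤᵐ⁰}
    (hw : ∀ z ∈ integralClosure R P, w z ≤ 1) : (mIdeal w hw).IsPrime := by
  constructor
  · rw [Ideal.ne_top_iff_one, mem_mIdeal, OneMemClass.coe_one, map_one]
    exact lt_irrefl _
  · intro x y hxy
    rw [mem_mIdeal, MulMemClass.coe_mul, map_mul] at hxy
    rw [mem_mIdeal, mem_mIdeal]
    by_contra hcon
    push Not at hcon
    exact absurd hxy (not_lt.2 (one_le_mul_of_one_le_of_one_le hcon.1 hcon.2))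

end GalConjAux

open GalConjAux
open scoped Pointwise

theorem exists_conj {Z P : Type*} [Field Z] [Field P] [Algebra Z P] [FiniteDimensional Z P]
    [IsGalois Z P] {w w' : Valuation P ℤᵐ⁰}
    (h : ∀ z : Z, w (algebraMap Z P z) ≤ 1 ↔ w' (algebraMap Z P z) ≤ 1) :
    ∃ σ : P ≃ₐ[Z] P, ∀ z : P, w (σ z) ≤ 1 ↔ w' z ≤ 1 := by
  classical
  obtain ⟨R, hR⟩ : ∃ R, R = (w.comap (algebraMap Z P)).valuationSubring := ⟨_, rfl⟩
  have hRR : (w'.comap (algebraMap Z P)).valuationSubring = R := by
    rw [hR]
    ext z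
    simp only [Valuation.mem_valuationSubring_iff, Valuation.comap_apply]
    exact (h z).symm
  have hint : ∀ z ∈ integralClosure R P, w z ≤ 1 := fun z hz => by
    have hz' : IsIntegral R z := hz
    rw [hR] at hz'
    exact val_le_one_of_isIntegral w hz'
  have hint' : ∀ z ∈ integralClosure R P, w' z ≤ 1 := fun z hz => by
    have hz' : IsIntegral R z := hz
    rw [← hRR] at hz'
    exact val_le_one_of_isIntegral w' hz'
  have hq : ∀ a : P, w a ≤ 1 → ∃ b c : integralClosure R P, w (c : P) = 1 ∧ (c : P) * a = b := by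
    intro a ha
    obtain ⟨b, c, hb, hc, h1, h2⟩ := exists_isIntegral_quotient (K₀ := Z) w ha
      (Algebra.IsAlgebraic.isAlgebraic (R := Z) a)
    rw [← hR] at hb hc
    exact ⟨⟨b, hb⟩, ⟨c, hc⟩, h1, h2⟩
  have hq' : ∀ a : P, w' a ≤ 1 → ∃ b c : integralClosure R P, w' (c : P) = 1 ∧
      (c : P) * a = b := by
    intro a ha
    obtain ⟨b, c, hb, hc, h1, h2⟩ := exists_isIntegral_quotient (K₀ := Z) w' ha
      (Algebra.IsAlgebraic.isAlgebraic (R := Z) a)
    rw [hRR] at hb hc
    exact ⟨⟨b, hb⟩, ⟨c, hc⟩, h1, h2⟩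
  have hlt : ∀ z : Z, w (algebraMap Z P z) < 1 ↔ w' (algebraMap Z P z) < 1 := by
    intro z
    by_cases hz : z = 0
    · rw [hz, map_zero, map_zero, map_zero]
    have hz' : algebraMap Z P z ≠ 0 := by simpa using hz
    have h0 := h z⁻¹
    rw [map_inv₀, map_inv₀, map_inv₀] at h0
    have e1 : (w (algebraMap Z P z))⁻¹ ≤ 1 ↔ 1 ≤ w (algebraMap Z P z) :=
      inv_le_one₀ (zero_lt_iff.2 ((Valuation.ne_zero_iff w).2 hz'))
    have e2 : (w' (algebraMap Z P z))⁻¹ ≤ 1 ↔ 1 ≤ w' (algebraMap Z P z) :=
      inv_le_one₀ (zero_lt_iff.2 ((Valuation.ne_zero_iff w').2 hz'))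
    rw [e1, e2] at h0
    rw [← not_le, ← not_le, h0]
  have hunder : (mIdeal w hint).under R = (mIdeal w' hint').under R := by
    ext r
    rw [Ideal.under, Ideal.under, Ideal.mem_comap, Ideal.mem_comap, mem_mIdeal, mem_mIdeal]
    exact hlt r
  haveI : IsIntegralClosure (integralClosure R P) R P := inferInstance
  haveI : IsFractionRing (integralClosure R P) P :=
    IsIntegralClosure.isFractionRing_of_finite_extension R Z P (integralClosure R P)
  haveI := Algebra.isInvariant_of_isGalois' R Z P (integralClosure R P)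
  haveI : Finite (integralClosure R P ≃ₐ[R] integralClosure R P) :=
    Finite.of_equiv _ (galRestrict R Z P (integralClosure R P)).toEquiv
  obtain ⟨g, hg⟩ := Algebra.IsInvariant.exists_smul_of_under_eq R (integralClosure R P)
    (integralClosure R P ≃ₐ[R] integralClosure R P) (mIdeal w hint) (mIdeal w' hint') hunder
  obtain ⟨σ, hσ⟩ := (galRestrict R Z P (integralClosure R P)).surjective g⁻¹
  have hσx : ∀ x : integralClosure R P, σ (x : P) = ((g⁻¹ • x : integralClosure R P) : P) := by
    intro x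
    have h1 := algebraMap_galRestrict_apply (A := R) (B := integralClosure R P) σ x
    rw [hσ] at h1
    exact h1.symm
  have hmem : ∀ x : integralClosure R P, w' (x : P) < 1 ↔ w (σ (x : P)) < 1 := by
    intro x
    rw [hσx, ← mem_mIdeal hint', ← mem_mIdeal hint, hg]
    exact Ideal.mem_pointwise_smul_iff_inv_smul_mem
  have hσ1 : ∀ x : integralClosure R P, w (σ (x : P)) ≤ 1 := by
    intro x
    rw [hσx]
    exact hint _ (g⁻¹ • x : integralClosure R P).2
  refine ⟨σ, fun z => ⟨fun hz => ?_, fun hz => ?_⟩⟩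
  · obtain ⟨b, c, hc, hbc⟩ := hq _ hz
    obtain ⟨c', hc'⟩ : ∃ c' : integralClosure R P, σ (c' : P) = c := ⟨g • c, by
      rw [hσx, inv_smul_smul]⟩
    obtain ⟨b', hb'⟩ : ∃ b' : integralClosure R P, σ (b' : P) = b := ⟨g • b, by
      rw [hσx, inv_smul_smul]⟩
    have h1 : (c' : P) * z = b' := by
      apply σ.injective
      rw [map_mul, hc', hb', hbc]
    have h2 : w' (c' : P) = 1 := by
      refine le_antisymm (hint' _ c'.2) ?_
      rw [← not_lt, hmem, hc', hc]
      exact lt_irrefl _
    have h3 := congrArg w' h1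
    rw [map_mul, h2, one_mul] at h3
    rw [h3]
    exact hint' _ b'.2
  · obtain ⟨b, c, hc, hbc⟩ := hq' _ hz
    have h2 : w (σ (c : P)) = 1 := by
      refine le_antisymm (hσ1 c) ?_
      rw [← not_lt, ← hmem, hc]
      exact lt_irrefl _
    have h3 := congrArg (fun t => w (σ t)) hbc
    simp only [map_mul] at h3
    rw [h2, one_mul] at h3
    rw [h3]
    exact hσ1 b

theorem unr_of_conj {Z P : Type*} [Field Z] [Field P] [Algebra Z P] [FiniteDimensional Z P]
    [IsGalois Z P] {w w' : Valuation P ℤᵐ⁰}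
    (h : ∀ z : Z, w (algebraMap Z P z) ≤ 1 ↔ w' (algebraMap Z P z) ≤ 1) (hw : Unr Z w) :
    Unr Z w' := by
  obtain ⟨σ, hσ⟩ := exists_conj h
  have heq : (w.comap (σ : P →+* P)).IsEquiv w' := by
    rw [Valuation.isEquiv_iff_val_le_one]
    intro x
    exact hσ x
  intro z hz
  have h1 : w (σ z) < 1 := by
    rw [← not_le]
    intro hcon
    have h2 := (heq 1 z).1 (by
      rw [map_one]
      exact hcon)
    rw [map_one] at h2
    exact absurd hz (not_lt.2 h2)
  obtain ⟨t, ht1, ht2⟩ := hw _ h1
  have h3 : σ (algebraMap Z P t) = algebraMap Z P t := σ.commutes t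
  refine ⟨t, ?_, ?_⟩
  · rw [← not_le]
    intro hcon
    have h2 := (heq 1 (algebraMap Z P t)).2 (by
      rw [map_one]
      exact hcon)
    rw [map_one] at h2
    have h4 : w (σ (algebraMap Z P t)) < 1 := by rw [h3]; exact ht1
    exact absurd h4 (not_lt.2 h2)
  · apply (heq z (algebraMap Z P t)).1
    change w (σ z) ≤ w (σ (algebraMap Z P t))
    rw [h3]
    exact ht2

end Pf72953.Br
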