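import Mathlib
import Pool.Agent.Lib.Pf72953b.Defs
import Pool.Agent.Lib.Pf72953b.GalConj
import Pool.Agent.Lib.Pf72953b.FinBad

/-!
MODULE Pf72953b.Cover: finitely many moving divisors contain all branch divisors of `P/Z`.

PROOF.
`exists_finite_conj`: take `n, T, I` from `exists_finite` (FinBad.lean).  For every pair `(j, σ)`, `j : Fin n`, `σ : P ≃ₐ[Z] P` (a finite type)
for which some bad `(i, w)` satisfies `∀ z : P, w z ≤ 1 ↔ T j (σ z) ≤ 1`, choose such an `(i, w)`; enumerate the chosen ones by `Fin n'`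
(a finite type `{p // ...}` with `Fintype.equivFin`).  Given a bad `(i, w)`, `exists_finite` gives `j` with equivalent
restrictions to `Z`, `exists_conj` (GalConj.lean; `w := T j`, `w' := w`) gives `σ` with `T j (σ z) ≤ 1 ↔ w z ≤ 1`, so `w` is equivalent to the chosen one.
`exists_cover`: take the `T j, I j` from `exists_finite_conj`, and `D j` from `hmv (I j) (T j)`.  Given a bad `(i, w)` and `j` with
`∀ z, w z ≤ 1 ↔ T j z ≤ 1` (so `w` and `T j` are equivalent valuations: `Valuation.isEquiv_iff_val_le_one` or so), `T j (D j).sec < T j (gen (I j))` gives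
`w (D j).sec < w (gen (I j))`; and `w (gen (I j)) = w (gen i)` by `LineBundle.compat` applied to `w.comap (algebraMap Y P)`: `w ≤ 1` on
`M.A i` (`Bad.prime.center`) and on `M.A (I j)` (`(T j)`'s `Bad.prime.center` and the equivalence).
-/

set_option autoImplicit false
set_option linter.style.haveILetI false

open scoped WithZero
open Pf72953 Pf72953.Mov

namespace Pf72953.Br

variable {k B Y Z P : Type*} [Field k] [CharZero k] [Field B] [Field Y] [Field Z] [Field P]
  [Algebra k B] [Algebra k Y] [Algebra k Z] [Algebra k P] [Algebra B Z] [Algebra B P]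
  [Algebra Y Z] [Algebra Y P] [Algebra Z P]
  [IsScalarTower k B Z] [IsScalarTower k B P] [IsScalarTower k Y Z] [IsScalarTower k Y P]
  [IsScalarTower k Z P] [IsScalarTower B Z P] [IsScalarTower Y Z P]

theorem exists_finite_conj [CharZero B] [Algebra.EssFiniteType k B] [Algebra.EssFiniteType k Y]
    [Algebra.EssFiniteType k Z] [FiniteDimensional Z P] [IsGalois Z P] (M : SmoothModel k Y)
    (hx : ∀ i, IsTranscendenceBasis B (fun a => algebraMap Y Z (M.x i a)))
    (hgen : ∀ z : Z, z ∈ IntermediateField.adjoin B (Set.range (algebraMap Y Z))) :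
    ∃ (n : ℕ) (T : Fin n → Valuation P ℤᵐ⁰) (I : Fin n → M.I),
      (∀ j, Bad k M B Z (I j) (T j)) ∧
      ∀ (i : M.I) (w : Valuation P ℤᵐ⁰), Bad k M B Z i w →
        ∃ j, ∀ z : P, w z ≤ 1 ↔ T j z ≤ 1 := by
  classical
  obtain ⟨n, T, I, hT, hfin⟩ := exists_finite (P := P) M hx hgen
  let good : Fin n × (P ≃ₐ[Z] P) → Prop := fun p => ∃ iw : M.I × Valuation P ℤᵐ⁰,
    Bad k M B Z iw.1 iw.2 ∧ ∀ z, iw.2 z ≤ 1 ↔ T p.1 (p.2 z) ≤ 1
  have hft : Finite {p // good p} := inferInstance
  have hft' : Fintype {p // good p} := Fintype.ofFinite _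
  let e := Fintype.equivFin {p // good p}
  have hch : ∀ q : {p // good p}, ∃ iw : M.I × Valuation P ℤᵐ⁰,
    Bad k M B Z iw.1 iw.2 ∧ ∀ z, iw.2 z ≤ 1 ↔ T q.1.1 (q.1.2 z) ≤ 1 := fun q => q.2
  choose c hc1 hc2 using hch
  refine ⟨Fintype.card {p // good p}, fun j => (c (e.symm j)).2, fun j => (c (e.symm j)).1,
    fun j => hc1 _, ?_⟩
  intro i w hw
  obtain ⟨j0, hj0⟩ := hfin i w hw
  obtain ⟨σ, hσ⟩ := exists_conj (w := T j0) (w' := w) (fun z => (hj0 z).symm)
  have hg : good (j0, σ) := ⟨(i, w), hw, fun z => (hσ z).symm⟩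
  refine ⟨e ⟨(j0, σ), hg⟩, fun z => ?_⟩
  simp only [Equiv.symm_apply_apply]
  rw [hc2, ← hσ]

theorem exists_cover [CharZero B] [Algebra.EssFiniteType k B] [Algebra.EssFiniteType k Y]
    [Algebra.EssFiniteType k Z] [FiniteDimensional Z P] [IsGalois Z P] (M : SmoothModel k Y)
    (hx : ∀ i, IsTranscendenceBasis B (fun a => algebraMap Y Z (M.x i a)))
    (hgen : ∀ z : Z, z ∈ IntermediateField.adjoin B (Set.range (algebraMap Y Z)))
    (hmv : BranchMoves k M B Z P) :
    ∃ (n : ℕ) (D : Fin n → MovingDivisor M B P), (∀ j, IsBranch k Z (D j)) ∧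
      ∀ (i : M.I) (w : Valuation P ℤᵐ⁰), Bad k M B Z i w →
        ∃ j, w (D j).sec < w (algebraMap Y P ((D j).S.gen i)) := by
  obtain ⟨n, T, I, hT, hfin⟩ := exists_finite_conj (P := P) M hx hgen
  choose D hD1 hD2 using fun j => hmv (I j) (T j) (hT j)
  refine ⟨n, D, fun j => ⟨I j, T j, hT j, hD1 j, hD2 j⟩, ?_⟩
  intro i w hw
  obtain ⟨j, hj⟩ := hfin i w hw
  have heq : w.IsEquiv (T j) := by
    rw [Valuation.isEquiv_iff_val_le_one]
    intro x
    exact hj x
  refine ⟨j, ?_⟩
  have h1 : w (algebraMap Y P ((D j).S.gen (I j))) = w (algebraMap Y P ((D j).S.gen i)) := by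
    refine (D j).S.compat (I j) i (w.comap (algebraMap Y P)) ?_ ?_
    · intro f hf
      exact (hj _).2 ((hT j).prime.center f hf)
    · intro f hf
      exact hw.prime.center f hf
  rw [← h1, ← not_le]
  intro hcon
  exact absurd (hD1 j) (not_lt.2 ((heq _ _).1 hcon))

end Pf72953.Br
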