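import Mathlib

/-!
MODULE Pf72953b.GalUp: base change of a finite Galois extension.

PROOF.  `P/Z` is the splitting field of a separable polynomial `p ∈ Z[X]` (`IsGalois` + finite: e.g.
`IsGalois.is_separable_splitting_field`).  `N` is generated over `L` by the image of `P`, hence by the roots of `p` (the image of
`P` is `Z[roots]`), and `p` splits in `P`, hence in `N`: `N` is a splitting field of `p.map (algebraMap Z L)`, which is separable
(`Polynomial.Separable.map`); `IsGalois.of_separable_splitting_field`.  Finite-dimensionality follows from the generation by
finitely many integral elements.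
-/

set_option autoImplicit false
set_option linter.style.haveILetI false

namespace Pf72953.Br

theorem galois_up {Z P L N : Type*} [Field Z] [Field P] [Field L] [Field N] [Algebra Z P]
    [Algebra Z L] [Algebra Z N] [Algebra P N] [Algebra L N] [IsScalarTower Z P N]
    [IsScalarTower Z L N] [FiniteDimensional Z P] [IsGalois Z P]
    (h : IntermediateField.adjoin L (Set.range (algebraMap P N)) = ⊤) :
    FiniteDimensional L N ∧ IsGalois L N := by
  obtain ⟨T, hT₁, hT₂⟩ := IsGalois.is_separable_splitting_field Z P
  have hs : (T.map (algebraMap Z L)).IsSplittingField L N := by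
    rw [isSplittingField_iff_intermediateField]
    constructor
    · rw [Polynomial.map_map, ← IsScalarTower.algebraMap_eq]
      exact Polynomial.Splits.of_algHom hT₂.1 (IsScalarTower.toAlgHom Z P N)
    · have h' : (T.map (algebraMap Z L)).rootSet N = T.rootSet N := by
        simp [Set.ext_iff, Polynomial.mem_rootSet']
      rw [h', eq_top_iff, ← h, IntermediateField.adjoin_le_iff]
      rintro _ ⟨x, rfl⟩
      have hr := Polynomial.IsSplittingField.adjoin_rootSet_eq_range (L := P) (F := N) T
        (IsScalarTower.toAlgHom Z P N)
      have hx : algebraMap P N x ∈ Algebra.adjoin Z (T.rootSet N) := by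
        rw [hr]
        exact ⟨x, rfl⟩
      have hle : Algebra.adjoin Z (T.rootSet N) ≤
          (IntermediateField.adjoin L (T.rootSet N)).toSubalgebra.restrictScalars Z :=
        Algebra.adjoin_le (IntermediateField.subset_adjoin L _)
      exact hle hx
  haveI := hs
  exact ⟨Polynomial.IsSplittingField.finiteDimensional N (T.map (algebraMap Z L)),
    IsGalois.of_separable_splitting_field (p := T.map (algebraMap Z L)) hT₁.map⟩

end Pf72953.Br
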