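import Mathlib
import Pool.Agent.Lib.Pf72953b.Defs
import Pool.Agent.Lib.Pf72953.Adapted

/-!
MODULE Pf72953b.Inertia: if the inertia group is trivial, then the extension is unramified.

PROOF.  (`w` trivial: the conclusion is empty, since `w z < 1` means `z = 0`, take `t = 0`.)  Let `w` be non-trivial,
`s ∈ L` with the largest value `< 1` (`exists_unif`, Adapted.lean).  It suffices to find `t ∈ K` with
`w t = w s` (then `w z ≤ w s = w t` for all `z` with `w z < 1`).
1. `D = {σ | ∀ z, w z ≤ 1 → w (σ z) ≤ 1}`.  `Gal(L/K)` is finite, so `D` is a subgroup (closed under composition, and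
   `σ⁻¹` is a power of `σ`).  For `σ ∈ D` and all `z`: `w (σ z) = w z`.  Indeed for `z ≠ 0` the norm
   `a = ∏ τ z ∈ K` ... simplest: units go to units (apply `σ` to `z` and `z⁻¹`); the valuation `w ∘ σ` has the same
   valuation ring as `w`, so `w s ≥ w (σ s)` and conversely are the largest values `< 1` of the same value set: `w (σ s)`
   is the largest value `< 1` of `w ∘ σ`, and the set of values of `w ∘ σ` is the set of values of `w`, so
   `w (σ s) = w s`; every `z ≠ 0` is `u s^n`, `u` a unit (`ℤᵐ⁰`: value group cyclic generated by `w s`), hence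
   `w (σ z) = w z`.
2. The automorphisms `σ ∈ D` induce distinct automorphisms of the residue field `κ` of `w` (`hI`: if `σ, τ ∈ D` agree on
   `κ` then `σ⁻¹ τ` satisfies the hypothesis of `hI`).  `u_σ := σ s / s` is a unit for `σ ∈ D`.  By Dedekind's
   independence of characters (`linearIndependent_monoidHom` for the distinct maps `κ → κ`) the map
   `c ↦ ∑_{σ ∈ D} ū_σ σ̄(c)` is not zero (`ū_1 = 1`): there is `c ∈ O_w` with `w (∑_{σ∈D} σ (c) u_σ) = 1`, i.e.
   `w (∑_{σ ∈ D} σ (c s)) = w s`.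
3. Approximation: there is `e ∈ L` with `w (e - 1) < 1`... precisely: with `w (e - 1) ≤ w s` and `w (τ e) ≤ w (s)^2 / ..`
   so small that `w (τ (e c s)) < w s` for all `τ ∉ D`.  For `τ ∉ D` the valuations `w` and `w ∘ τ` are not equivalent
   and neither valuation ring contains the other (both are discrete rank one), so there is `y_τ` with
   `w (y_τ) > 1 > w (τ y_τ)`; by the usual induction on a finite set of such `τ` there is one `y` with
   `w y > 1 > w (τ y)` for all `τ ∉ D` (given `y` for a set `T` and `y'` for `τ`: if `w (τ y) ≤ 1` take `y^n y'`, if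
   `w (τ y) > 1` take `(y^n / (1 + y^n)) y'`, `n` large); then `e = y^n / (1 + y^n)` satisfies `w (e - 1) → 0`,
   `w (τ e) → 0` (`w (e-1) = w(y)^{-n}`, `w (τ e) = w (τ y)^n`).  (Mathlib may have weak approximation for
   inequivalent absolute values or valuations; use it if convenient.)
   For `σ ∈ D`: `w (σ (e c s) - σ (c s)) = w ((e-1) c s) < w s`.
4. `t = Tr_{L/K} (e c s) = ∑_{σ} σ (e c s)` (`Algebra.trace_eq_sum_automorphisms`): the sum over `D` has value `w s` by 2
   and 3, the sum over the rest has value `< w s`.  So `w t = w s`.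
(Any other proof is fine, e.g. via Mathlib's theory of inertia groups and ramification indices for the integral closure of
the discrete valuation ring of `w` in `K`.)
-/

set_option autoImplicit false
set_option linter.style.haveILetI false

open scoped WithZero
open Pf72953

namespace Pf72953.Br

namespace InertiaAux

section gen

variable {L : Type*} [Field L]

lemma pow_arch {a : ℤᵐ⁰} (b : ℤᵐ⁰) (ha : a < 1) : ∃ n0 : ℕ, ∀ n, n0 ≤ n → a ^ n * b < 1 := by
  rcases eq_or_ne a 0 with rfl | ha0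
  · refine ⟨1, fun n hn => ?_⟩
    rw [zero_pow (by omega), zero_mul]
    exact zero_lt_one
  have ha' : 0 < a := zero_lt_iff.2 ha0
  have h1 : 1 < a⁻¹ := (one_lt_inv₀ ha').2 ha
  obtain ⟨n, hn⟩ := MulArchimedean.arch b h1
  refine ⟨n + 1, fun m hm => ?_⟩
  have h2 : a ^ m * b ≤ a ^ m * (a⁻¹) ^ n := mul_le_mul_right hn _
  refine lt_of_le_of_lt h2 ?_
  obtain ⟨l, rfl⟩ : ∃ l, m = (l + 1) + n := ⟨m - n - 1, by omega⟩
  rw [pow_add, mul_assoc, ← mul_pow, mul_inv_cancel₀ ha0, one_pow, mul_one]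
  exact pow_lt_one₀ ha'.le ha (by omega)

lemma val_big (v : Valuation L ℤᵐ⁰) {y : L} (hy : 1 < v y) {n : ℕ} (hn : 1 ≤ n) :
    v (1 + y ^ n) = v y ^ n := by
  have h : v 1 < v (y ^ n) := by
    rw [map_one, map_pow]
    exact one_lt_pow₀ hy (by omega)
  rw [v.map_add_eq_of_lt_right h, map_pow]

lemma val_small (v : Valuation L ℤᵐ⁰) {y : L} (hy : v y < 1) {n : ℕ} (hn : 1 ≤ n) :
    v (1 + y ^ n) = 1 := by
  have h : v (y ^ n) < v 1 := by
    rw [map_one, map_pow]
    exact pow_lt_one₀ zero_le hy (by omega)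
  rw [v.map_add_eq_of_lt_left h, map_one]

lemma exists_n {ι : Type*} (T : Finset ι) (a b : ι → ℤᵐ⁰) (ha : ∀ i ∈ T, a i < 1) :
    ∃ n : ℕ, 1 ≤ n ∧ ∀ i ∈ T, a i ^ n * b i < 1 := by
  have h : ∀ᶠ n : ℕ in Filter.atTop, ∀ i ∈ T, a i ^ n * b i < 1 := by
    rw [Filter.eventually_all_finset]
    intro i hi
    obtain ⟨n0, h⟩ := pow_arch (b i) (ha i hi)
    exact Filter.eventually_atTop.2 ⟨n0, h⟩
  obtain ⟨n, hn⟩ := (h.and (Filter.eventually_ge_atTop 1)).exists
  exact ⟨n, hn.2, hn.1⟩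

lemma sep_finset (w : Valuation L ℤᵐ⁰) (h0 : ∃ y, 1 < w y) {ι : Type*} (T : Finset ι)
    (v : ι → Valuation L ℤᵐ⁰) (h : ∀ i ∈ T, ∃ y, 1 < w y ∧ v i y < 1) :
    ∃ y, 1 < w y ∧ ∀ i ∈ T, v i y < 1 := by
  classical
  induction T using Finset.induction_on with
  | empty =>
    obtain ⟨y, hy⟩ := h0
    exact ⟨y, hy, by simp⟩
  | insert j T hj ih =>
    obtain ⟨y, hy1, hy2⟩ := ih (fun i hi => h i (Finset.mem_insert_of_mem hi))
    obtain ⟨z, hz1, hz2⟩ := h j (Finset.mem_insert_self j T)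
    obtain ⟨n, hn1, hn2⟩ := exists_n T (fun i => v i y) (fun i => v i z) hy2
    by_cases hc : v j y ≤ 1
    · refine ⟨y ^ n * z, ?_, ?_⟩
      · rw [map_mul, map_pow]
        exact one_lt_mul_of_le_of_lt (one_le_pow₀ hy1.le) hz1
      · intro i hi
        rw [map_mul, map_pow]
        rcases Finset.mem_insert.1 hi with rfl | hi
        · exact mul_lt_one_of_nonneg_of_lt_one_right (pow_le_one₀ zero_le hc) zero_le hz2
        · exact hn2 i hi
    · push Not at hc
      have hp : ∀ (u : Valuation L ℤᵐ⁰), 1 < u y → u y ^ n ≠ 0 := by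
        intro u hu h
        have h1 : 1 < u y ^ n := one_lt_pow₀ hu (by omega)
        rw [h] at h1
        exact absurd h1 (not_lt.2 zero_le)
      refine ⟨y ^ n / (1 + y ^ n) * z, ?_, ?_⟩
      · rw [map_mul, map_div₀, val_big w hy1 hn1, map_pow, div_self (hp w hy1), one_mul]
        exact hz1
      · intro i hi
        rw [map_mul, map_div₀]
        rcases Finset.mem_insert.1 hi with rfl | hi
        · rw [val_big (v i) hc hn1, map_pow, div_self (hp _ hc), one_mul]
          exact hz2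
        · rw [val_small (v i) (hy2 i hi) hn1, div_one, map_pow]
          exact hn2 i hi

lemma approx (w : Valuation L ℤᵐ⁰) (h0 : ∃ y, 1 < w y) {ι : Type*} (T : Finset ι)
    (v : ι → Valuation L ℤᵐ⁰) (h : ∀ i ∈ T, ∃ y, 1 < w y ∧ v i y < 1) (b : ι → ℤᵐ⁰) :
    ∃ e : L, w (e - 1) < 1 ∧ ∀ i ∈ T, v i e * b i < 1 := by
  obtain ⟨y, hy1, hy2⟩ := sep_finset w h0 T v h
  obtain ⟨n, hn1, hn2⟩ := exists_n T (fun i => v i y) b hy2
  have hb : 1 < w y ^ n := one_lt_pow₀ hy1 (by omega)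
  have hne : 1 + y ^ n ≠ 0 := by
    intro h
    have h1 := val_big w hy1 hn1
    rw [h, map_zero] at h1
    rw [← h1] at hb
    exact absurd hb (not_lt.2 zero_le)
  refine ⟨y ^ n / (1 + y ^ n), ?_, ?_⟩
  · have h1 : y ^ n / (1 + y ^ n) - 1 = -(1 + y ^ n)⁻¹ := by
      field_simp
      ring
    rw [h1, Valuation.map_neg, map_inv₀, val_big w hy1 hn1]
    exact inv_lt_one_of_one_lt₀ hb
  · intro i hi
    rw [map_div₀, val_small (v i) (hy2 i hi) hn1, div_one, map_pow]
    exact hn2 i hi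

end gen

section gal

variable {K L : Type*} [Field K] [Field L] [Algebra K L]

/-- the decomposition group, as a predicate -/
def Dc (w : Valuation L ℤᵐ⁰) (σ : L ≃ₐ[K] L) : Prop := ∀ z, w z ≤ 1 → w (σ z) ≤ 1

lemma Dc_le {w : Valuation L ℤᵐ⁰} {σ : L ≃ₐ[K] L} (h : Dc w σ) {x y : L} (hxy : w x ≤ w y) :
    w (σ x) ≤ w (σ y) := by
  rcases eq_or_ne y 0 with rfl | hy
  · rw [map_zero] at hxy
    have hx : x = 0 := by
      have := le_antisymm hxy zero_le
      exact (Valuation.zero_iff w).1 this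
    rw [hx]
  · have hy' : w y ≠ 0 := (Valuation.ne_zero_iff w).2 hy
    have h1 : w (x / y) ≤ 1 := by
      rw [map_div₀]
      exact div_le_one_of_le₀ hxy zero_le
    have h2 := h _ h1
    have hy2 : 0 < w (σ y) := zero_lt_iff.2 ((Valuation.ne_zero_iff w).2 ((map_ne_zero σ).2 hy))
    rw [map_div₀, map_div₀, div_le_one₀ hy2] at h2
    exact h2

lemma Dc_eq [FiniteDimensional K L] {w : Valuation L ℤᵐ⁰} {σ : L ≃ₐ[K] L} (h : Dc w σ) (z : L) :
    w (σ z) = w z := by
  obtain ⟨k, hk⟩ : ∃ k : ℕ, orderOf σ = k + 1 := ⟨orderOf σ - 1, by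
    have := orderOf_pos σ
    omega⟩
  have hone : (σ ^ (k + 1)) z = z := by
    rw [← hk, pow_orderOf_eq_one]
    rfl
  rcases le_total (w (σ z)) (w z) with hc | hc
  · refine le_antisymm hc ?_
    have h1 : ∀ m : ℕ, w ((σ ^ (m + 1)) z) ≤ w (σ z) := by
      intro m
      induction m with
      | zero => rw [zero_add, pow_one]
      | succ m ih =>
        rw [pow_succ', AlgEquiv.mul_apply]
        exact Dc_le h (ih.trans hc)
    have h2 := h1 k
    rwa [hone] at h2
  · refine le_antisymm ?_ hc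
    have h1 : ∀ m : ℕ, w (σ z) ≤ w ((σ ^ (m + 1)) z) := by
      intro m
      induction m with
      | zero => rw [zero_add, pow_one]
      | succ m ih =>
        rw [pow_succ', AlgEquiv.mul_apply]
        exact Dc_le h (hc.trans ih)
    have h2 := h1 k
    rwa [hone] at h2

lemma Dc_inv [FiniteDimensional K L] {w : Valuation L ℤᵐ⁰} {σ : L ≃ₐ[K] L} (h : Dc w σ) (z : L) :
    w (σ⁻¹ z) = w z := by
  have h1 := Dc_eq h (σ⁻¹ z)
  have h2 : σ (σ⁻¹ z) = z := by
    rw [← AlgEquiv.mul_apply, mul_inv_cancel]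
    rfl
  rw [h2] at h1
  exact h1.symm

/-- the action on the valuation ring, followed by the residue map -/
noncomputable def chi (w : Valuation L ℤᵐ⁰) (σ : L ≃ₐ[K] L) (h : Dc w σ) :
    w.valuationSubring →+* IsLocalRing.ResidueField w.valuationSubring :=
  (IsLocalRing.residue w.valuationSubring).comp
    (((σ : L →+* L).comp w.valuationSubring.subtype).codRestrict w.valuationSubring.toSubring
      (fun x => h x.1 x.2))

lemma chi_eq_iff (w : Valuation L ℤᵐ⁰) {σ τ : L ≃ₐ[K] L} (hσ : Dc w σ) (hτ : Dc w τ)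
    (x : w.valuationSubring) : chi w σ hσ x = chi w τ hτ x ↔ w (σ x - τ x) < 1 := by
  unfold chi
  rw [RingHom.comp_apply, RingHom.comp_apply, ← sub_eq_zero, ← map_sub,
    IsLocalRing.residue_eq_zero_iff, Valuation.mem_maximalIdeal_iff]
  rfl

lemma chi_inj [FiniteDimensional K L] {w : Valuation L ℤᵐ⁰}
    (hI : ∀ σ : L ≃ₐ[K] L, (∀ z, w z ≤ 1 → w (σ z - z) < 1) → σ = 1) {σ τ : L ≃ₐ[K] L}
    (hσ : Dc w σ) (hτ : Dc w τ) (h : chi w σ hσ = chi w τ hτ) : σ = τ := by
  have h1 : τ * σ⁻¹ = 1 := by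
    refine hI _ fun z hz => ?_
    have hz' : w (σ⁻¹ z) ≤ 1 := by rw [Dc_inv hσ]; exact hz
    have h2 : chi w τ hτ ⟨σ⁻¹ z, hz'⟩ = chi w σ hσ ⟨σ⁻¹ z, hz'⟩ := by rw [h]
    rw [chi_eq_iff] at h2
    have h3 : σ (σ⁻¹ z) = z := by
      rw [← AlgEquiv.mul_apply, mul_inv_cancel]
      rfl
    simp only at h2
    rw [h3] at h2
    rw [AlgEquiv.mul_apply]
    exact h2
  have h2 : τ = σ := by
    have := mul_inv_eq_one.1 h1
    exact this
  exact h2.symm

/-- some combination of the conjugates has the value of the uniformizer -/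
lemma exists_c [FiniteDimensional K L] {w : Valuation L ℤᵐ⁰}
    (hI : ∀ σ : L ≃ₐ[K] L, (∀ z, w z ≤ 1 → w (σ z - z) < 1) → σ = 1) {s : L} (hs : s ≠ 0)
    (D : Finset (L ≃ₐ[K] L)) (hD : ∀ σ ∈ D, Dc w σ) (h1D : (1 : L ≃ₐ[K] L) ∈ D) :
    ∃ c : L, w c ≤ 1 ∧ w (∑ σ ∈ D, σ (c * s)) = w s := by
  have hlin := linearIndependent_monoidHom w.valuationSubring
    (IsLocalRing.ResidueField w.valuationSubring)
  set f : {σ // σ ∈ D} → (w.valuationSubring →* IsLocalRing.ResidueField w.valuationSubring) :=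
    fun σ => (chi w σ.1 (hD σ.1 σ.2) : _ →* _) with hf
  have hfi : Function.Injective f := by
    intro σ τ h
    refine Subtype.ext (chi_inj hI (hD σ.1 σ.2) (hD τ.1 τ.2) ?_)
    ext x
    exact DFunLike.congr_fun h x
  have hlin2 := hlin.comp f hfi
  rw [Fintype.linearIndependent_iff] at hlin2
  have hws : w s ≠ 0 := (Valuation.ne_zero_iff w).2 hs
  have hu : ∀ σ ∈ D, w (σ s / s) ≤ 1 := by
    intro σ hσ
    rw [map_div₀, Dc_eq (hD σ hσ), div_self hws]
  by_contra hcon
  push Not at hcon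
  have h3 := hlin2 (fun σ => IsLocalRing.residue w.valuationSubring ⟨σ.1 s / s, hu σ.1 σ.2⟩) ?_
    ⟨1, h1D⟩
  · simp only at h3
    rw [IsLocalRing.residue_eq_zero_iff, Valuation.mem_maximalIdeal_iff] at h3
    simp only [AlgEquiv.one_apply, div_self hs, map_one, lt_self_iff_false] at h3
  · funext x
    have h4 := hcon x.1 x.2
    have hle : w (∑ σ ∈ D, σ (x.1 * s)) ≤ w s := by
      refine Valuation.map_sum_le w fun σ hσ => ?_
      rw [Dc_eq (hD σ hσ), map_mul]
      exact mul_le_of_le_one_left zero_le x.2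
    have hlt : w ((∑ σ ∈ D, σ (x.1 * s)) / s) < 1 := by
      rw [map_div₀, div_lt_one₀ (zero_lt_iff.2 hws)]
      exact lt_of_le_of_ne hle h4
    have h5 : (∑ σ : {σ // σ ∈ D}, IsLocalRing.residue w.valuationSubring ⟨σ.1 s / s, hu σ.1 σ.2⟩ *
        chi w σ.1 (hD σ.1 σ.2) x) = IsLocalRing.residue w.valuationSubring
          ⟨(∑ σ ∈ D, σ (x.1 * s)) / s, hlt.le⟩ := by
      unfold chi
      simp only [RingHom.comp_apply]
      simp only [← map_mul, ← map_sum]
      congr 1
      apply Subtype.ext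
      refine Eq.trans ?_ (b := ∑ σ : {σ // σ ∈ D}, (σ.1 s / s) * (σ.1 x.1)) ?_
      · rw [AddSubmonoidClass.coe_finsetSum]
        rfl
      · show _ = (∑ σ ∈ D, σ (x.1 * s)) / s
        rw [← Finset.sum_attach D, Finset.sum_div]
        refine Finset.sum_congr rfl fun σ _ => ?_
        rw [map_mul]
        ring
    simp only [Finset.sum_apply, Pi.smul_apply, smul_eq_mul, Pi.zero_apply, Function.comp_apply]
    show (∑ σ : {σ // σ ∈ D}, IsLocalRing.residue w.valuationSubring ⟨σ.1 s / s, hu σ.1 σ.2⟩ *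
        chi w σ.1 (hD σ.1 σ.2) x) = 0
    rw [h5, IsLocalRing.residue_eq_zero_iff, Valuation.mem_maximalIdeal_iff]
    exact hlt

end gal

end InertiaAux

open InertiaAux

theorem unr_of_inertia {K L : Type*} [Field K] [Field L] [Algebra K L] [FiniteDimensional K L]
    [IsGalois K L] {w : Valuation L ℤᵐ⁰}
    (hI : ∀ σ : L ≃ₐ[K] L, (∀ z, w z ≤ 1 → w (σ z - z) < 1) → σ = 1) : Unr K w := by
  classical
  by_cases htriv : ∃ a : L, a ≠ 0 ∧ w a ≠ 1
  swap
  · push Not at htriv
    intro z hz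
    refine ⟨0, by simp, ?_⟩
    rcases eq_or_ne z 0 with rfl | hz0
    · simp
    · rw [htriv z hz0] at hz
      exact absurd hz (lt_irrefl _)
  obtain ⟨s, hs⟩ := exists_unif w htriv
  have hs0 := hs.ne_zero
  have hws : w s ≠ 0 := (Valuation.ne_zero_iff w).2 hs0
  have hws0 : 0 < w s := zero_lt_iff.2 hws
  set D : Finset (L ≃ₐ[K] L) := Finset.univ.filter (fun σ => Dc w σ) with hDdef
  have hD : ∀ σ ∈ D, Dc w σ := fun σ hσ => (Finset.mem_filter.1 hσ).2
  have h1D : (1 : L ≃ₐ[K] L) ∈ D := Finset.mem_filter.2 ⟨Finset.mem_univ _, fun z hz => hz⟩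
  obtain ⟨c, hc1, hc⟩ := exists_c hI hs0 D hD h1D
  set a : L := c * s with ha
  have hwa : w a ≤ w s := by
    rw [ha, map_mul]
    exact mul_le_of_le_one_left zero_le hc1
  have h0 : ∃ y, 1 < w y := ⟨s⁻¹, by rw [map_inv₀]; exact (one_lt_inv₀ hws0).2 hs.lt_one⟩
  have hsep : ∀ τ ∈ (Finset.univ \ D), ∃ y, 1 < w y ∧ (w.comap (τ : L →+* L)) y < 1 := by
    intro τ hτ
    have hτ' : ¬ Dc w τ := fun h => (Finset.mem_sdiff.1 hτ).2 (Finset.mem_filter.2 ⟨Finset.mem_univ _, h⟩)
    unfold Dc at hτ'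
    push Not at hτ'
    obtain ⟨z, hz1, hz2⟩ := hτ'
    have hz0 : z ≠ 0 := by
      rintro rfl
      rw [map_zero, map_zero] at hz2
      exact absurd hz2 (not_lt.2 zero_le)
    have hinv : w (τ z⁻¹) < 1 := by
      rw [map_inv₀, map_inv₀]
      exact inv_lt_one_of_one_lt₀ hz2
    obtain ⟨n, hn⟩ := pow_arch (w (τ s⁻¹)) hinv
    refine ⟨(z⁻¹) ^ n * s⁻¹, ?_, ?_⟩
    · rw [map_mul, map_pow]
      refine one_lt_mul_of_le_of_lt (one_le_pow₀ ?_) ?_
      · rw [map_inv₀]
        exact (one_le_inv₀ (zero_lt_iff.2 ((Valuation.ne_zero_iff w).2 hz0))).2 hz1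
      · rw [map_inv₀]
        exact (one_lt_inv₀ hws0).2 hs.lt_one
    · rw [Valuation.comap_apply, map_mul, map_pow, map_mul, map_pow]
      exact hn n le_rfl
  obtain ⟨e, he1, he2⟩ := approx w h0 (Finset.univ \ D) (fun τ => w.comap (τ : L →+* L)) hsep
    (fun τ => w (τ a) * (w s)⁻¹)
  set t : K := Algebra.trace K L (e * a) with ht
  have htr : algebraMap K L t = ∑ σ : L ≃ₐ[K] L, σ (e * a) := by
    rw [ht]
    exact trace_eq_sum_automorphisms (K := K) (e * a)
  have hsplit : algebraMap K L t = (∑ σ ∈ D, σ a) +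
      ((∑ σ ∈ D, σ ((e - 1) * a)) + ∑ σ ∈ Finset.univ \ D, σ (e * a)) := by
    rw [htr, ← Finset.sum_sdiff (Finset.subset_univ D), ← add_assoc, ← Finset.sum_add_distrib,
      add_comm]
    congr 1
    refine Finset.sum_congr rfl fun σ _ => ?_
    rw [← map_add]
    congr 1
    ring
  have hr1 : w (∑ σ ∈ D, σ ((e - 1) * a)) < w s := by
    refine Valuation.map_sum_lt w hws fun σ hσ => ?_
    rw [Dc_eq (hD σ hσ), map_mul]
    calc w (e - 1) * w a ≤ w (e - 1) * w s := mul_le_mul_right hwa _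
      _ < 1 * w s := mul_lt_mul_of_pos_right he1 hws0
      _ = w s := one_mul _
  have hr2 : w (∑ σ ∈ Finset.univ \ D, σ (e * a)) < w s := by
    refine Valuation.map_sum_lt w hws fun σ hσ => ?_
    have h1 := he2 σ hσ
    rw [Valuation.comap_apply, ← mul_assoc] at h1
    rw [map_mul, map_mul]
    have h2 := mul_lt_mul_of_pos_right h1 hws0
    rw [mul_assoc _ (w s)⁻¹, inv_mul_cancel₀ hws, mul_one, one_mul] at h2
    exact h2
  have hr : w ((∑ σ ∈ D, σ ((e - 1) * a)) + ∑ σ ∈ Finset.univ \ D, σ (e * a)) < w (∑ σ ∈ D, σ a) := by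
    rw [hc]
    exact Valuation.map_add_lt w hr1 hr2
  have hwt : w (algebraMap K L t) = w s := by
    rw [hsplit, w.map_add_eq_of_lt_left hr, hc]
  intro z hz
  refine ⟨t, ?_, ?_⟩
  · rw [hwt]
    exact hs.lt_one
  · rw [hwt]
    exact hs.le z hz

end Pf72953.Br
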