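import Mathlib
import Pool.Agent.Lib.Pf72953m.Fin
import Pool.Agent.Lib.Pf72953u.Main

/-!
MODULE Pf72953b.PosKod: a pluricanonical form of the function field is a global section of `m K` on the smooth
model `M` (Hartogs).

PROOF.  `hc.exists_coord` (Core.lean, as in Pf72953u/Inst.lean: `KodairaGE.exists_coord`) with a transcendence basis
`y` of `Y/k` (`exists_tb`) gives `m ≥ 1` and `g ≠ 0`, `g ∈ WReg k y m`.  Put `ω = g • pureForm k (fun _ => y)`
(`PluriForm k Y (dimension k Y) m`); `ω ≠ 0` (`eq_coef_smul`, `coef_self` in Coord.lean, see how `KodairaGE.of_coord`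
is proved).  `mem_pluriSections_iff` (Pf72953m/Fin.lean) reduces the claim to `g ∈ CoefSec M S y m (fun _ => 0)`, i.e.
for every chart `i`: `g * jac (M.tb i) y ^ m ∈ M.A i` (the product of the `gen ^ 0` is `1`).  If not, Hartogs
(`Chart.hartogs` for `chart_of_model M i`, Pf72953u/Normal.lean and Main.lean) gives a divisorial valuation `v` of `Y/k`
with `RegBasis k v (M.x i)` and `1 < v (g * jac (M.tb i) y ^ m)`; but `g ∈ WReg k y m` applied to `v` and the regular
basis `M.x i` says `v g * v (jac _ y) ^ m ≤ 1` (the proof of transcendence-basis property is irrelevant by proof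
irrelevance).  Contradiction.
-/

set_option autoImplicit false
set_option linter.style.haveILetI false

open scoped WithZero
open Pf72953 Pf72953.Mov Pf72953.Up

namespace Pf72953.Br

theorem pos_of_kodaira {k Y J : Type*} [Field k] [CharZero k] [Field Y] [Algebra k Y] [Fintype J]
    [Algebra.EssFiniteType k Y] (M : SmoothModel k Y) (S : J → LineBundle M)
    (h : KodairaGE k Y 0) :
    ∃ m : ℕ, 1 ≤ m ∧ ∃ ω ∈ pluriSections M S m (fun _ => 0), ω ≠ 0 := by
  classical
  obtain ⟨y, hy⟩ := exists_tb k Y
  obtain ⟨m, hm, g, hg, hg0, -⟩ := h.exists_coord hy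
  refine ⟨m, hm, g • pureForm k (fun _ => y), ?_, ?_⟩
  · rw [mem_pluriSections_iff hy, map_smul, coef_self, smul_eq_mul, mul_one]
    intro i
    refine ⟨g * jac (M.tb i) y ^ m, ?_, by simp⟩
    by_contra hF
    obtain ⟨v, hv, hvx, hvA, hvF⟩ := (chart_of_model M i).hartogs hF
    refine absurd hvF (not_lt.mpr ?_)
    rw [map_mul, map_pow]
    exact hg v hv _ hvx
  · intro h0
    apply hg0
    have := congrArg (coef hy m) h0
    rwa [map_smul, coef_self, smul_eq_mul, mul_one, map_zero] at this

end Pf72953.Br
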