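import Mathlib
import Pool.Agent.Lib.Pf72953b.Defs

/-!
Moving divisors with coefficients in a larger field.
-/

set_option autoImplicit false
set_option linter.style.haveILetI false

open scoped WithZero
open Pf72953 Pf72953.Mov

namespace Pf72953.Br

variable {k Y B P N : Type*} [Field k] [Field Y] [Algebra k Y] {M : SmoothModel k Y} [Field B]
  [Field P] [Field N] [Algebra B P] [Algebra B N] [Algebra Y P] [Algebra Y N] [Algebra P N]
  [IsScalarTower B P N] [IsScalarTower Y P N]

/-- the divisor `D`, its coefficients considered in a larger field `N` -/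
def mapD (N : Type*) [Field N] [Algebra B N] [Algebra Y N] [Algebra P N] [IsScalarTower B P N]
    (D : MovingDivisor M B P) : MovingDivisor M B N where
  S := D.S
  r := D.r
  s := D.s
  a := fun l => algebraMap P N (D.a l)
  s_mem := D.s_mem
  s_indep := D.s_indep
  a_alg := fun l => (D.a_alg l).algebraMap
  a_ne := by
    obtain ⟨l, hl⟩ := D.a_ne
    exact ⟨l, by simpa using hl⟩

theorem mapD_sec (D : MovingDivisor M B P) : (mapD N D).sec = algebraMap P N D.sec := by
  rw [MovingDivisor.sec, MovingDivisor.sec, map_sum]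
  refine Finset.sum_congr rfl fun l _ => ?_
  rw [map_mul, ← IsScalarTower.algebraMap_apply Y P N]
  rfl

theorem mapD_ratios (D : MovingDivisor M B P) :
    (mapD N D).ratios = algebraMap P N '' D.ratios := by
  ext θ
  constructor
  · rintro ⟨l, l', rfl⟩
    exact ⟨D.a l / D.a l', ⟨l, l', rfl⟩, by rw [map_div₀]; rfl⟩
  · rintro ⟨_, ⟨l, l', rfl⟩, rfl⟩
    exact ⟨l, l', by rw [map_div₀]; rfl⟩

end Pf72953.Br
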