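import Mathlib
import Pool.Agent.Lib.Pf72953b.Defs
import Pool.Agent.Lib.Pf72953m.Over

/-!
MODULE Pf72953b.NonVan: if the form `dx_{i1} ∧ ⋯ ∧ dx_{in}` of `L/B` does not vanish at `w` and `N/L` is unramified at
`w`, then `w` restricted to `Z` is a prime divisor of the chart and `P/Z` is unramified at `w`.

PROOF.  Write `n = dimension k Y`, `x_b = algebraMap Y _ (M.x i b)`.
1. `Δ = det (d a (x_b)) ∈ L` has `w Δ = 1` (`hd1`, and `≤ 1` since all entries have value `≤ 1`: `x_b` has value
   `≤ 1` by `hA` and `d a` preserves `O_w ∩ L`).  Let `Q = (d a (x_b))⁻¹` (adjugate times `Δ⁻¹`, entries of value `≤ 1`) and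
   `D a = ∑_b Q a b • d b ∈ Der_B(L)`: `D a (x_b) = δ_ab`, `D a` preserves `O_w ∩ L`.
2. Extension to `N`: let `c : κ → L`, `t` be an adapted system with a uniformizer for `w.comap (algebraMap L N)`
   (`IsDivisorial.exists_adapted`; `w` restricted to `L` is divisorial: `IsDivisorial.restrict`, non-trivial since `N/L` is
   algebraic, cf. `WReg.pull` in Pf72953u/Pull.lean); its image in `N` is adapted (`Adapted.map`), `t` is a uniformizer
   of `w` by `hNL`, so `c` is a regular basis at `w` (`Adapted.regBasis`).  Put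
   `D' a = ∑_j algebraMap L N (D a (c j)) • pd hN j ∈ Der_k(N)`; it preserves `O_w` and extends `D a`
   (`pd_algebraMap`, `der_eq_sum` as in Over.lean).
3. For `z ∈ Z`: `D' a (z) = ` the image of `∂_a z`, `∂_a = pd hx a ∈ Der_B(Z)`: two derivations `Z → N` over `B` which
   agree on the transcendence basis `x_b` of `Z/B` agree (`der_eq_sum`-type lemma; characteristic zero).
   So `w (∂_a z) ≤ 1` for `z ∈ Z` with `w z ≤ 1`.
4. `PrimeAt`: `center` is `hA`; for `d ∈ Der_B(Z)`: `d z = ∑_a d (x_a) ∂_a z` (`der_eq_sum hx`), so `w (d z) ≤ 1`.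
5. `Unr Z (w.comap (algebraMap P N))`: if `w` is trivial on `Z`, it is trivial on `P` (algebraic,
   `val_eq_one_of_isIntegral`), and `w z < 1` means `z = 0`.  Otherwise let `u = w` restricted to `Z`; it is a divisorial
   valuation over `k` (`IsDivisorial.restrict`), hence over `B` (`IsDivisorial.over`); take an adapted system
   `c' : Fin n → Z`, uniformizer `t' ∈ Z`, for `u` over `B` (`exists_adapted`, card = `dimension B Z`), with `c' j₀ = t'`;
   `∂ = pd _ j₀ ∈ Der_B(Z)` satisfies `∂ t' = 1` and preserves `O_u` (`Adapted.regBasis`).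
   `∂ t' = ∑_a ∂ (x_a) ∂_a t'` with `u (∂ (x_a)) ≤ 1`, so `u (∂_a t') = 1` for some `a` (all are `≤ 1`).  Apply
   `isUnif_of_der` (Unram.lean) to `w`, the derivation `(∂_a t')⁻¹ • D' a` of `N` and `π = t'` (`D' a` preserves `O_w`,
   `D π = 1`): `t'` is a uniformizer of `w` (on `N`), a fortiori `w z ≤ w t'` for all `z ∈ P` with `w z < 1`.
-/

set_option autoImplicit false
set_option linter.style.haveILetI false

open scoped WithZero
open Pf72953 Pf72953.Mov

namespace Pf72953.Br

namespace NonVanAux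

/-- a derivation of `L/B` restricted to `Z ⊆ L` -/
theorem der_restrict {B Z L ι : Type*} [Field B] [CharZero B] [Field Z] [Field L] [Algebra B Z]
    [Algebra B L] [Algebra Z L] [IsScalarTower B Z L] [Fintype ι] {x : ι → Z}
    (hx : IsTranscendenceBasis B x) (D : Derivation B L L) (z : Z) :
    D (algebraMap Z L z) = ∑ b, algebraMap Z L (pd hx b z) * D (algebraMap Z L (x b)) := by
  have h := congrArg (Derivation.compAlgebraMap Z D).liftKaehlerDifferential (D_eq_sum hx z)
  rw [map_sum] at h
  simpa [Derivation.liftKaehlerDifferential_comp_D, Algebra.smul_def] using h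

section poly

variable {B Z ι : Type*} [Field B] [Field Z] [Algebra B Z] [Fintype ι]
  [DecidableEq ι] {x : ι → Z}

omit [Fintype ι] [DecidableEq ι] in
theorem aeval_le_one {u : Valuation Z ℤᵐ⁰} (htriv : ∀ b : B, b ≠ 0 → u (algebraMap B Z b) = 1)
    (hx1 : ∀ b, u (x b) ≤ 1) (p : MvPolynomial ι B) : u (MvPolynomial.aeval x p) ≤ 1 := by
  induction p using MvPolynomial.induction_on with
  | C c =>
    rw [MvPolynomial.algHom_C]
    rcases eq_or_ne c 0 with rfl | hc
    · simp
    · exact (htriv c hc).le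
  | add p q hp hq =>
    rw [map_add]
    exact (u.map_add _ _).trans (max_le hp hq)
  | mul_X p i hp =>
    rw [map_mul, MvPolynomial.aeval_X, map_mul]
    exact mul_le_one' hp (hx1 i)

omit [Fintype ι] in
theorem pd_aeval [CharZero B] (hx : IsTranscendenceBasis B x) (a : ι) (p : MvPolynomial ι B) :
    pd hx a (MvPolynomial.aeval x p) = MvPolynomial.aeval x (MvPolynomial.pderiv a p) := by
  induction p using MvPolynomial.induction_on with
  | C c => simp
  | add p q hp hq => rw [map_add, map_add, map_add, map_add, hp, hq]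
  | mul_X p i hp =>
    rw [map_mul, MvPolynomial.aeval_X, Derivation.leibniz, hp, pd_self, MvPolynomial.pderiv_mul,
      map_add, map_mul, map_mul, MvPolynomial.aeval_X, MvPolynomial.pderiv_X]
    simp only [smul_eq_mul]
    by_cases h : a = i
    · subst h
      simp
      ring
    · rw [if_neg h, Pi.single_eq_of_ne (Ne.symm h)]
      simp
      ring

theorem aeval_eq_one [CharZero B] (hx : IsTranscendenceBasis B x) {u : Valuation Z ℤᵐ⁰}
    (htriv : ∀ b : B, b ≠ 0 → u (algebraMap B Z b) = 1) (hx1 : ∀ b, u (x b) ≤ 1)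
    (hmax : ∀ a z, u z < 1 → u (pd hx a z) < 1) (n : ℕ) :
    ∀ p : MvPolynomial ι B, (∀ m ∈ p.support, Finsupp.degree m ≤ n) → p ≠ 0 →
      u (MvPolynomial.aeval x p) = 1 := by
  have hconst : ∀ p : MvPolynomial ι B, (∀ m ∈ p.support, m = 0) → p ≠ 0 →
      u (MvPolynomial.aeval x p) = 1 := by
    intro p hp hp0
    have h1 : p = MvPolynomial.C (MvPolynomial.coeff 0 p) := by
      ext m
      rw [MvPolynomial.coeff_C]
      split_ifs with h
      · rw [← h]
      · by_contra hne
        exact h (hp m (MvPolynomial.mem_support_iff.2 hne)).symm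
    have h2 : MvPolynomial.coeff 0 p ≠ 0 := by
      intro h0
      rw [h0, map_zero] at h1
      exact hp0 h1
    rw [h1, MvPolynomial.algHom_C]
    exact htriv _ h2
  induction n with
  | zero =>
    intro p hp hp0
    refine hconst p (fun m hm => ?_) hp0
    exact (Finsupp.degree_eq_zero_iff m).1 (Nat.le_zero.1 (hp m hm))
  | succ n ih =>
    intro p hp hp0
    by_cases hall : ∀ m ∈ p.support, m = 0
    · exact hconst p hall hp0
    push Not at hall
    obtain ⟨m, hm, hm0⟩ := hall
    obtain ⟨a, ha⟩ : ∃ a, m a ≠ 0 := by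
      by_contra hcon
      push Not at hcon
      exact hm0 (Finsupp.ext hcon)
    have hsum : (m - Finsupp.single a 1) + Finsupp.single a 1 = m := by
      apply tsub_add_cancel_of_le
      rw [Finsupp.single_le_iff]
      exact Nat.one_le_iff_ne_zero.2 ha
    have hne : MvPolynomial.pderiv a p ≠ 0 := by
      intro h0
      have h1 := MvPolynomial.coeff_pderiv (i := a) p (m - Finsupp.single a 1)
      rw [h0, MvPolynomial.coeff_zero, hsum] at h1
      have h2 : MvPolynomial.coeff m p ≠ 0 := MvPolynomial.mem_support_iff.1 hm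
      have h3 := Nat.cast_add_one_ne_zero (R := B) ((m - Finsupp.single a 1 : ι →₀ ℕ) a)
      exact mul_ne_zero h2 h3 h1.symm
    have hdeg : ∀ l ∈ (MvPolynomial.pderiv a p).support, Finsupp.degree l ≤ n := by
      intro l hl
      have h1 := MvPolynomial.mem_support_iff.1 hl
      rw [MvPolynomial.coeff_pderiv] at h1
      have h2 := hp _ (MvPolynomial.mem_support_iff.2 (left_ne_zero_of_mul h1))
      rw [map_add, Finsupp.degree_single] at h2
      omega
    have h1 := ih _ hdeg hne
    refine le_antisymm (aeval_le_one htriv hx1 p) (not_lt.1 fun hlt => ?_)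
    have h2 := hmax a _ hlt
    rw [pd_aeval, h1] at h2
    exact lt_irrefl _ h2

/-- some `∂_a t` is a unit at a uniformizer `t` -/
theorem exists_unit_pd [CharZero B] (hx : IsTranscendenceBasis B x) {u : Valuation Z ℤᵐ⁰}
    (htriv : ∀ b : B, b ≠ 0 → u (algebraMap B Z b) = 1) (hx1 : ∀ b, u (x b) ≤ 1)
    (hreg : ∀ a z, u z ≤ 1 → u (pd hx a z) ≤ 1) {t : Z} (ht : IsUnif u t) :
    ∃ a, u (pd hx a t) = 1 := by
  by_contra hcon
  push Not at hcon
  have hlt : ∀ a, u (pd hx a t) < 1 := fun a =>
    lt_of_le_of_ne (hreg a t ht.lt_one.le) (hcon a)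
  have htpos : 0 < u t := zero_lt_iff.mpr ((Valuation.ne_zero_iff u).mpr ht.ne_zero)
  have hmax : ∀ a z, u z < 1 → u (pd hx a z) < 1 := by
    intro a z hz
    have hz1 : z = t * (z / t) := by
      have := ht.ne_zero
      field_simp
    have hle : u (z / t) ≤ 1 := by
      rw [map_div₀, div_le_one₀ htpos]
      exact ht.le z hz
    rw [hz1, Derivation.leibniz, smul_eq_mul, smul_eq_mul]
    refine (u.map_add _ _).trans_lt (max_lt ?_ ?_)
    · rw [map_mul]
      calc u t * u (pd hx a (z / t)) ≤ u t * 1 := by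
            gcongr
            exact hreg a _ hle
        _ < 1 := by rw [mul_one]; exact ht.lt_one
    · rw [map_mul]
      calc u (z / t) * u (pd hx a t) ≤ 1 * u (pd hx a t) := by gcongr
        _ < 1 := by rw [one_mul]; exact hlt a
  have hone : ∀ p : MvPolynomial ι B, p ≠ 0 → u (MvPolynomial.aeval x p) = 1 := by
    intro p hp
    refine aeval_eq_one hx htriv hx1 hmax (p.support.sup fun m => Finsupp.degree m) p ?_ hp
    intro m hm
    exact Finset.le_sup (f := fun m => Finsupp.degree m) hm
  haveI := hx.isAlgebraic_field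
  have htr : ∀ b : IntermediateField.adjoin B (Set.range x), b ≠ 0 →
      u (algebraMap (IntermediateField.adjoin B (Set.range x)) Z b) = 1 := by
    rintro ⟨b, hb⟩ hb0
    change u b = 1
    have hb' := hb
    rw [IntermediateField.mem_adjoin_range_iff] at hb'
    obtain ⟨r, s, rfl⟩ := hb'
    have hne : MvPolynomial.aeval x r / MvPolynomial.aeval x s ≠ 0 := fun h =>
      hb0 (Subtype.ext h)
    have hr : r ≠ 0 := by
      rintro rfl
      exact hne (by simp)
    have hs : s ≠ 0 := by
      rintro rfl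
      exact hne (by simp)
    rw [map_div₀, hone r hr, hone s hs, div_one]
  have h1 := val_eq_one_of_isIntegral (B := IntermediateField.adjoin B (Set.range x)) htr
    ht.ne_zero (Algebra.IsAlgebraic.isAlgebraic
      (R := IntermediateField.adjoin B (Set.range x)) t).isIntegral
  exact absurd h1 ht.lt_one.ne

end poly

theorem det_le {L n : Type*} [Field L] [Fintype n] [DecidableEq n] (v : Valuation L ℤᵐ⁰)
    (A : Matrix n n L) (hA : ∀ i j, v (A i j) ≤ 1) : v A.det ≤ 1 := by
  rw [Matrix.det_apply]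
  refine Valuation.map_sum_le _ fun σ _ => ?_
  rw [Units.smul_def, zsmul_eq_mul, map_mul]
  refine mul_le_one' ?_ ?_
  · rcases Int.units_eq_one_or (Equiv.Perm.sign σ) with h | h <;> simp [h, Valuation.map_neg]
  rw [map_prod]
  exact Finset.prod_le_one' fun i _ => hA _ _

/-- the dual derivations -/
theorem exists_dual {B L n : Type*} [Field B] [Field L] [Algebra B L] [Fintype n] [DecidableEq n]
    (v : Valuation L ℤᵐ⁰) (ξ : n → L) (hξ : ∀ b, v (ξ b) ≤ 1) (d : n → Derivation B L L)
    (hd : ∀ a z, v z ≤ 1 → v (d a z) ≤ 1)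
    (hd1 : ¬ v (Matrix.det (Matrix.of fun a b => d a (ξ b))) < 1) :
    ∃ D : n → Derivation B L L, (∀ a z, v z ≤ 1 → v (D a z) ≤ 1) ∧
      ∀ a b, D a (ξ b) = if a = b then 1 else 0 := by
  set A : Matrix n n L := Matrix.of fun a b => d a (ξ b) with hA
  have hAe : ∀ a b, v (A a b) ≤ 1 := fun a b => hd a _ (hξ b)
  have hdet : v A.det = 1 := le_antisymm (det_le v A hAe) (not_lt.1 hd1)
  have hne : A.det ≠ 0 := by
    intro h
    rw [h, map_zero] at hdet
    exact zero_ne_one hdet
  have hQ : ∀ a b, v (A⁻¹ a b) ≤ 1 := by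
    intro a b
    rw [Matrix.inv_def, Matrix.smul_apply, smul_eq_mul, map_mul, Ring.inverse_eq_inv', map_inv₀,
      hdet, inv_one, one_mul, Matrix.adjugate_apply]
    refine det_le v _ fun i j => ?_
    by_cases h : i = b
    · subst h
      rw [Matrix.updateRow_self]
      by_cases h2 : j = a
      · subst h2
        simp
      · rw [Pi.single_eq_of_ne h2]
        simp
    · rw [Matrix.updateRow_ne h]
      exact hAe i j
  have happ : ∀ a z, (∑ b, A⁻¹ a b • d b : Derivation B L L) z = ∑ b, A⁻¹ a b * d b z := by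
    intro a z
    rw [← Derivation.coeFnAddMonoidHom_apply, map_sum, Finset.sum_apply]
    refine Finset.sum_congr rfl fun b _ => ?_
    rw [Derivation.coeFnAddMonoidHom_apply, Derivation.smul_apply, smul_eq_mul]
  refine ⟨fun a => ∑ b, A⁻¹ a b • d b, fun a z hz => ?_, fun a b => ?_⟩
  · rw [happ]
    refine Valuation.map_sum_le _ fun b _ => ?_
    rw [map_mul]
    exact mul_le_one' (hQ a b) (hd b z hz)
  · rw [happ]
    have h1 : (A⁻¹ * A) a b = (1 : Matrix n n L) a b := by
      rw [Matrix.nonsing_inv_mul _ (isUnit_iff_ne_zero.2 hne)]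
    rw [Matrix.mul_apply, Matrix.one_apply] at h1
    exact h1

end NonVanAux

open NonVanAux

variable {k B Y Z P L N : Type*} [Field k] [CharZero k] [Field B] [Field Y] [Field Z] [Field P]
  [Field L] [Field N] [Algebra k B] [Algebra k Y] [Algebra k Z] [Algebra k P] [Algebra k L]
  [Algebra k N] [Algebra B Z] [Algebra B P] [Algebra B L] [Algebra B N] [Algebra Y Z]
  [Algebra Y P] [Algebra Y L] [Algebra Y N] [Algebra Z P] [Algebra Z L] [Algebra Z N]
  [Algebra P N] [Algebra L N]
  [IsScalarTower k B Z] [IsScalarTower k B P] [IsScalarTower k B L] [IsScalarTower k B N]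
  [IsScalarTower k Y Z] [IsScalarTower k Y P] [IsScalarTower k Y L] [IsScalarTower k Y N]
  [IsScalarTower k Z P] [IsScalarTower k Z L] [IsScalarTower k Z N] [IsScalarTower k P N]
  [IsScalarTower k L N] [IsScalarTower B Z P] [IsScalarTower B Z L] [IsScalarTower B Z N]
  [IsScalarTower B P N] [IsScalarTower B L N] [IsScalarTower Y Z P] [IsScalarTower Y Z L]
  [IsScalarTower Y Z N] [IsScalarTower Y P N] [IsScalarTower Y L N] [IsScalarTower Z P N]
  [IsScalarTower Z L N]

theorem prime_and_unr [Algebra.EssFiniteType k N] [FiniteDimensional L N] [FiniteDimensional Z P]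
    (M : SmoothModel k Y) (i : M.I)
    (hx : IsTranscendenceBasis B (fun a => algebraMap Y Z (M.x i a)))
    {w : Valuation N ℤᵐ⁰} (hw : IsDivisorial k N w)
    (htriv : ∀ b : B, b ≠ 0 → w (algebraMap B N b) = 1)
    (hA : ∀ f ∈ M.A i, w (algebraMap Y N f) ≤ 1) (hNL : Unr L w)
    (d : Fin (dimension k Y) → Derivation B L L)
    (hd : ∀ a z, w (algebraMap L N z) ≤ 1 → w (algebraMap L N (d a z)) ≤ 1)
    (hd1 : ¬ w (algebraMap L N
      (Matrix.det (Matrix.of fun a b => d a (algebraMap Y L (M.x i b))))) < 1) :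
    PrimeAt M B Z i (w.comap (algebraMap P N)) ∧ Unr Z (w.comap (algebraMap P N)) := by
  classical
  haveI : CharZero B := charZero_of_injective_algebraMap (algebraMap k B).injective
  obtain ⟨v, hv⟩ : ∃ v : Valuation L ℤᵐ⁰, v = w.comap (algebraMap L N) := ⟨_, rfl⟩
  have hvw : ∀ z : L, v z = w (algebraMap L N z) := fun z => by rw [hv]; rfl
  obtain ⟨u, hu⟩ : ∃ u : Valuation Z ℤᵐ⁰, u = w.comap (algebraMap Z N) := ⟨_, rfl⟩
  have huw : ∀ z : Z, u z = w (algebraMap Z N z) := fun z => by rw [hu]; rfl
  have huv : ∀ z : Z, u z = v (algebraMap Z L z) := fun z => by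
    rw [huw, hvw, ← IsScalarTower.algebraMap_apply Z L N]
  have huP : ∀ z : Z, (w.comap (algebraMap P N)) (algebraMap Z P z) = u z := fun z => by
    rw [huw, Valuation.comap_apply, ← IsScalarTower.algebraMap_apply Z P N]
  have hxw : ∀ b, w (algebraMap Y N (M.x i b)) ≤ 1 := fun b => hA _ (M.mem i b)
  have hξ : ∀ b, v (algebraMap Y L (M.x i b)) ≤ 1 := fun b => by
    rw [hvw, ← IsScalarTower.algebraMap_apply Y L N]
    exact hxw b
  obtain ⟨D, hD, hD1⟩ := exists_dual v (fun b => algebraMap Y L (M.x i b)) hξ d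
    (fun a z hz => by
      rw [hvw] at hz ⊢
      exact hd a z hz) (by rw [hvw]; exact hd1)
  -- the restriction to `Z`
  have hDZ : ∀ a (z : Z), D a (algebraMap Z L z) = algebraMap Z L (pd hx a z) := by
    intro a z
    rw [der_restrict hx (D a) z, Finset.sum_eq_single a]
    · have h1 := hD1 a a
      rw [if_pos rfl] at h1
      rw [← IsScalarTower.algebraMap_apply Y Z L, h1, mul_one]
    · intro b _ hb
      have h1 := hD1 a b
      rw [if_neg (Ne.symm hb)] at h1
      rw [← IsScalarTower.algebraMap_apply Y Z L, h1, mul_zero]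
    · intro h
      exact absurd (Finset.mem_univ a) h
  have hreg : ∀ a z, u z ≤ 1 → u (pd hx a z) ≤ 1 := by
    intro a z hz
    rw [huv, ← hDZ]
    rw [huv] at hz
    exact hD a _ hz
  have htrivZ : ∀ b : B, b ≠ 0 → u (algebraMap B Z b) = 1 := by
    intro b hb
    rw [huw, ← IsScalarTower.algebraMap_apply B Z N]
    exact htriv b hb
  have hx1 : ∀ b, u (algebraMap Y Z (M.x i b)) ≤ 1 := by
    intro b
    rw [huw, ← IsScalarTower.algebraMap_apply Y Z N]
    exact hxw b
  refine ⟨⟨?_, ?_⟩, ?_⟩
  · intro f hf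
    rw [Valuation.comap_apply, ← IsScalarTower.algebraMap_apply Y P N]
    exact hA f hf
  · intro δ hδ z hz
    rw [huP] at hz ⊢
    rw [der_eq_sum hx δ z]
    refine Valuation.map_sum_le _ fun a _ => ?_
    rw [map_mul]
    refine mul_le_one' (hreg a z hz) ?_
    have h1 := hδ a
    rwa [huP] at h1
  · intro z hz
    rcases eq_or_ne z 0 with rfl | hz0
    · exact ⟨0, by simp, by simp⟩
    have hnt : ∃ b : Z, b ≠ 0 ∧ u b ≠ 1 := by
      by_contra hcon
      push Not at hcon
      have h1 := val_eq_one_of_isIntegral (B := Z) (w := w.comap (algebraMap P N))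
        (fun b hb => by rw [huP]; exact hcon b hb) hz0
        (Algebra.IsIntegral.isIntegral (R := Z) z)
      exact absurd h1 hz.ne
    obtain ⟨t, ht⟩ := exists_unif u hnt
    obtain ⟨a, ha⟩ := exists_unit_pd hx htrivZ hx1 hreg ht
    have hne : algebraMap Z L (pd hx a t) ≠ 0 := by
      intro h0
      have h1 : pd hx a t = 0 := by simpa using h0
      rw [h1, map_zero] at ha
      exact zero_ne_one ha
    have hunit : v (algebraMap Z L (pd hx a t)) = 1 := by rw [← huv]; exact ha
    have hunif : IsUnif v (algebraMap Z L t) := by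
      refine isUnif_of_der v ((algebraMap Z L (pd hx a t))⁻¹ • D a) (fun y hy => ?_) ?_ ?_ ?_
      · rw [Derivation.smul_apply, smul_eq_mul, map_mul, map_inv₀, hunit, inv_one, one_mul]
        exact hD a y hy
      · simpa using ht.ne_zero
      · rw [← huv]
        exact ht.lt_one
      · rw [Derivation.smul_apply, smul_eq_mul, hDZ, inv_mul_cancel₀ hne]
    refine ⟨t, by rw [huP]; exact ht.lt_one, ?_⟩
    rw [huP, huv, Valuation.comap_apply]
    obtain ⟨s, hs1, hs2⟩ := hNL (algebraMap P N z) hz
    refine hs2.trans ?_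
    rw [← hvw]
    rw [← hvw] at hs1
    exact hunif.le s hs1

end Pf72953.Br
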