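import Mathlib
import Pool.Agent.Lib.Pf72953b.Defs
import Pool.Agent.Lib.Pf72953b.MapD
import Pool.Agent.Lib.Pf72953b.Inertia
import Pool.Agent.Lib.Pf72953b.GalConj
import Pool.Agent.Lib.Pf72953b.NonVan
import Pool.Agent.Lib.Pf72953t.Defs

/-!
MODULE Pf72953b.RamOn: the form `dx_{i1} ∧ ⋯ ∧ dx_{in}` vanishes at the generic point of the fibres over the branch divisors
of an isotrivial fibre space; the Galois closure is unramified over the generic point of the base.

PROOF.
`ramifiedOn_of_branch`: let `w, i, d` be as in `RamifiedOn` (unfold it) and suppose that the determinant has value `¬ < 1`.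
(a) `Unr L w` by `unr_of_inertia` (`K := L`, `L := N`): let `σ` be such that `w (σ z - z) < 1` for all `z` with `w z ≤ 1`.  For `g : G`, `g ≠ 0`:
    `w g = 1`, `σ g = g'` with `g' : G` (`hG`), so `g' - g ∈ G` has `w < 1` and therefore is `0` (`w` is trivial on `G`).
    So `σ = 1` by `hG1`.
(b) `prime_and_unr` (NonVan.lean) gives `PrimeAt M B Z i w'` and `Unr Z w'`, `w' = w.comap (algebraMap P N)`.
(c) `hD`: a chart `i₀`, a valuation `w₀` with `Bad k M B Z i₀ w₀` and `SuppOn k Z D w₀`.  `w'` is nontrivial: `w' D.sec < w' (gen i)`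
    (`mapD_sec`; towers) and if `w'` was trivial on `P` we would have `w' D.sec = 0`, so `D.sec = 0`, which is
    excluded by `sec_ne_zero` (Pf72953m/Est.lean; look at its hypotheses `[IsAlgClosed k]`, `[Nonempty M.I]`), and it is divisorial over `k`: `IsDivisorial.restrict` (Estimate/Orb,
    used in Pf72953u/Pull.lean).  `SuppOn` applied to `w'`, `i`: `w' z ≤ 1 ↔ w₀ z ≤ 1` for `z : Z`.
(d) `unr_of_conj` (GalConj.lean): `Unr Z w₀`, contradicting `Bad.ram`.
`unramified_of_const`: let `w` be divisorial on `N/k`, trivial on `Z`.  `unr_of_inertia` again: let `σ` be with `w (σ z - z) < 1` for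
    `w z ≤ 1`.  `w` is trivial on `P` (`P/Z` algebraic, `val_eq_one_of_isIntegral`), `σ` maps the image of `P` in `N` into itself (`P/Z` normal:
    e.g. `AlgHom.restrictNormal`/`AlgEquiv.restrictNormal`-type lemma for `σ` restricted to `Z`, or directly: `σ (p)` is a root of the minimal
    polynomial of `p` over `Z`, which splits in `P`).  So `σ p - p ∈ P` has `w < 1` and is `0`: `σ` is the identity on `P`
    and on `L`, hence on `N` (`h`).
-/

set_option autoImplicit false
set_option linter.style.haveILetI false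

open scoped WithZero
open Pf72953 Pf72953.Mov Pf72953.Twr

namespace Pf72953.Br

namespace RamOnAux

theorem sec_ne {k B Y P ιB : Type*} [Field k] [CharZero k] [Field B] [Field Y] [Field P]
    [Algebra k B] [Algebra k Y] [Algebra k P] [Algebra B P] [Algebra Y P] [IsScalarTower k B P]
    [IsScalarTower k Y P] [Fintype ιB] [DecidableEq ιB] {M : SmoothModel k Y}
    (D : MovingDivisor M B P) [IsAlgClosed k] (i : M.I) {x : ιB → B}
    (hx : IsTranscendenceBasis k x) (hz : IsTranscendenceBasis k (zfam (L := P) M i x)) :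
    D.sec ≠ 0 := by
  classical
  obtain ⟨C, hC⟩ := exists_cert D
  obtain ⟨l₀, hl₀⟩ := D.a_ne
  have hone : ∀ z : P, (1 : Valuation P ℤᵐ⁰) z ≤ 1 := fun z => by
    rcases eq_or_ne z 0 with rfl | hz
    · simp
    · rw [Valuation.one_apply_of_ne_zero hz]
  have htriv : ∀ z : P, z ≠ 0 → (1 : Valuation P ℤᵐ⁰) z = 1 := fun z hz =>
    Valuation.one_apply_of_ne_zero hz
  have hc : LogBasis k (1 : Valuation P ℤᵐ⁰) (zfam (L := P) M i x) :=
    LogBasis.of_trivial htriv hz
  have h1 := sec_bound D hC hx hz (w := 1) (fun f _ => hone _) hc (l₀ := l₀) (fun l => by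
    rw [htriv _ hl₀]; exact hone _)
  intro h0
  rw [h0, map_zero, le_zero_iff] at h1
  have h2 : relvol M i x hc ≠ 0 := by
    rw [relvol]
    refine mul_ne_zero (mul_ne_zero ?_ ?_) (inv_ne_zero (prod_cB_ne_zero hx _))
    · rw [jac_self, map_one]
      exact one_ne_zero
    · refine Finset.prod_ne_zero_iff.mpr fun j _ => ?_
      rw [Valuation.ne_zero_iff]
      exact hz.1.ne_zero j
  have h3 : (1 : Valuation P ℤᵐ⁰) (D.a l₀) ≠ 0 := by
    rw [htriv _ hl₀]
    exact one_ne_zero
  have h4 : (1 : Valuation P ℤᵐ⁰) (algebraMap Y P (D.S.gen i)) ≠ 0 := by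
    rw [htriv _ (by simpa using D.S.ne i)]
    exact one_ne_zero
  exact mul_ne_zero (pow_ne_zero _ h2) (mul_ne_zero h3 h4) h1

theorem sec_ne' {k B Y P N : Type*} [Field k] [CharZero k] [Field B] [Field Y] [Field P]
    [Field N] [Algebra k B] [Algebra k Y] [Algebra k P] [Algebra k N] [Algebra B P] [Algebra B N]
    [Algebra Y P] [IsScalarTower k B P] [IsScalarTower k B N]
    [IsScalarTower k Y P] {M : SmoothModel k Y} [Algebra.EssFiniteType k N]
    (D : MovingDivisor M B P) [IsAlgClosed k] (i : M.I)
    (hy : IsTranscendenceBasis B (fun a => algebraMap Y P (M.x i a))) : D.sec ≠ 0 := by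
  classical
  obtain ⟨s, hs⟩ := exists_isTranscendenceBasis k B
  have hind : AlgebraicIndependent k (fun b : s => algebraMap B N (b : B)) :=
    hs.1.map' (f := IsScalarTower.toAlgHom k B N) (algebraMap B N).injective
  haveI : Finite s := finite_of_algebraicIndependent hind
  haveI : Fintype s := Fintype.ofFinite s
  have h1 := hs.sumElim_comp hy
  refine sec_ne D i (x := fun b : s => (b : B)) hs ?_
  have h2 := h1.comp_equiv (Equiv.sumComm s (Fin (dimension k Y)))
  refine (iff_of_eq (congrArg (IsTranscendenceBasis k) ?_)).1 h2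
  funext j
  rcases j with j | j <;> rfl

end RamOnAux

open RamOnAux

variable {k B Y Z P L G N : Type*} [Field k] [CharZero k] [IsAlgClosed k] [Field B] [Field Y]
  [Field Z] [Field P]
  [Field L] [Field G] [Field N] [Algebra k B] [Algebra k Y] [Algebra k Z] [Algebra k P] [Algebra k L]
  [Algebra k N] [Algebra B Z] [Algebra B P] [Algebra B L] [Algebra B N] [Algebra Y Z]
  [Algebra Y P] [Algebra Y L] [Algebra Y N] [Algebra Z P] [Algebra Z L] [Algebra Z N]
  [Algebra P N] [Algebra L N] [Algebra G N]
  [IsScalarTower k B Z] [IsScalarTower k B P] [IsScalarTower k B L] [IsScalarTower k B N]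
  [IsScalarTower k Y Z] [IsScalarTower k Y P] [IsScalarTower k Y L] [IsScalarTower k Y N]
  [IsScalarTower k Z P] [IsScalarTower k Z L] [IsScalarTower k Z N] [IsScalarTower k P N]
  [IsScalarTower k L N] [IsScalarTower B Z P] [IsScalarTower B Z L] [IsScalarTower B Z N]
  [IsScalarTower B P N] [IsScalarTower B L N] [IsScalarTower Y Z P] [IsScalarTower Y Z L]
  [IsScalarTower Y Z N] [IsScalarTower Y P N] [IsScalarTower Y L N] [IsScalarTower Z P N]
  [IsScalarTower Z L N]

theorem ramifiedOn_of_branch [Algebra.EssFiniteType k N] [FiniteDimensional Z P] [IsGalois Z P]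
    [FiniteDimensional L N] [IsGalois L N] (M : SmoothModel k Y)
    (hx : ∀ i, IsTranscendenceBasis B (fun a => algebraMap Y Z (M.x i a)))
    (hG : ∀ (σ : N ≃ₐ[L] N) (g : G), ∃ g' : G, σ (algebraMap G N g) = algebraMap G N g')
    (hG1 : ∀ σ : N ≃ₐ[L] N, (∀ g : G, σ (algebraMap G N g) = algebraMap G N g) → σ = 1)
    {D : MovingDivisor M B P} (hD : IsBranch k Z D) : RamifiedOn k L G (mapD N D) := by
  intro w hw htriv hwG i hA hsec d hd
  by_contra hcon
  -- (a)
  have hNL : Unr L w := by
    refine unr_of_inertia (K := L) (L := N) (fun σ hσ => hG1 σ (fun g => ?_))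
    obtain ⟨g', hg'⟩ := hG σ g
    rcases eq_or_ne g 0 with rfl | hg0
    · rw [map_zero, map_zero]
    · have h1 : w (σ (algebraMap G N g) - algebraMap G N g) < 1 := hσ _ (hwG g hg0).le
      rw [hg', ← map_sub] at h1
      have h2 : g' - g = 0 := by
        by_contra hne
        rw [hwG _ hne] at h1
        exact lt_irrefl _ h1
      rw [hg', sub_eq_zero.1 h2]
  -- (b)
  obtain ⟨hprime, hunr⟩ := prime_and_unr (P := P) (Z := Z) M i (hx i) hw htriv hA hNL d hd hcon
  -- (c)
  obtain ⟨i₀, w₀, hbad, hsec₀, hsupp⟩ := hD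
  set w' := w.comap (algebraMap P N) with hw'
  have hsec' : w' D.sec < w' (algebraMap Y P (D.S.gen i)) := by
    rw [mapD_sec] at hsec
    rw [hw', Valuation.comap_apply, Valuation.comap_apply, ← IsScalarTower.algebraMap_apply Y P N]
    exact hsec
  have htriv' : ∀ b : B, b ≠ 0 → w' (algebraMap B P b) = 1 := by
    intro b hb
    rw [hw', Valuation.comap_apply, ← IsScalarTower.algebraMap_apply B P N]
    exact htriv b hb
  have hy : IsTranscendenceBasis B (fun a => algebraMap Y P (M.x i a)) := by
    have h1 : IsTranscendenceBasis B (algebraMap Z P ∘ fun a => algebraMap Y Z (M.x i a)) :=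
      (hx i).algebraMap_comp
    refine (iff_of_eq (congrArg (IsTranscendenceBasis B) ?_)).1 h1
    funext a
    exact (IsScalarTower.algebraMap_apply Y Z P _).symm
  have hne : D.sec ≠ 0 := sec_ne' (N := N) D i hy
  have hnt : ∃ a : P, a ≠ 0 ∧ w (algebraMap P N a) ≠ 1 := by
    by_contra hall
    push Not at hall
    have h1 : w' D.sec = 1 := hall _ hne
    have h2 : w' (algebraMap Y P (D.S.gen i)) = 1 := hall _ (by simpa using D.S.ne i)
    rw [h1, h2] at hsec'
    exact lt_irrefl _ hsec'
  have hdiv : IsDivisorial k P w' := IsDivisorial.restrict hw hnt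
  have hiff := hsupp w' i hdiv htriv' hprime hsec'
  exact hbad.ram (unr_of_conj hiff hunr)

omit [CharZero k] [IsAlgClosed k] [Field B] [Field Y] [Algebra k B] [Algebra k Y] [Algebra B Z]
  [Algebra B P] [Algebra B L] [Algebra B N] [Algebra Y Z] [Algebra Y P] [Algebra Y L] [Algebra Y N]
  [IsScalarTower k B Z] [IsScalarTower k B P] [IsScalarTower k B L] [IsScalarTower k B N]
  [IsScalarTower k Y Z] [IsScalarTower k Y P] [IsScalarTower k Y L] [IsScalarTower k Y N]
  [IsScalarTower B Z P] [IsScalarTower B Z L] [IsScalarTower B Z N]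
  [IsScalarTower B P N] [IsScalarTower B L N] [IsScalarTower Y Z P] [IsScalarTower Y Z L]
  [IsScalarTower Y Z N] [IsScalarTower Y P N] [IsScalarTower Y L N] in
theorem unramified_of_const [FiniteDimensional Z P] [IsGalois Z P] [FiniteDimensional L N]
    [IsGalois L N] (h : IntermediateField.adjoin L (Set.range (algebraMap P N)) = ⊤) :
    Unramified k Z L N := by
  intro w _ htriv
  have key : Unr L w := by
    refine unr_of_inertia (K := L) (L := N) (fun σ hσ => ?_)
    have hP : ∀ p : P, σ (algebraMap P N p) = algebraMap P N p := by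
      intro p
      set τ : N ≃ₐ[Z] N := σ.restrictScalars Z with hτ
      have h1 : algebraMap P N (τ.restrictNormal P p) = σ (algebraMap P N p) :=
        AlgEquiv.restrictNormal_commutes τ P p
      have hval : ∀ q : P, q ≠ 0 → w (algebraMap P N q) = 1 := fun q hq =>
        val_eq_one_of_isIntegral (B := Z) htriv (by simpa using hq)
          ((Algebra.IsIntegral.isIntegral (R := Z) q).map (IsScalarTower.toAlgHom Z P N))
      rcases eq_or_ne p 0 with rfl | hp0
      · rw [map_zero, map_zero]
      · have h2 := hσ _ (hval p hp0).le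
        rw [← h1, ← map_sub] at h2
        have h3 : τ.restrictNormal P p - p = 0 := by
          by_contra hne
          rw [hval _ hne] at h2
          exact lt_irrefl _ h2
        rw [← h1, sub_eq_zero.1 h3]
    ext z
    have hz : z ∈ IntermediateField.adjoin L (Set.range (algebraMap P N)) := by
      rw [h]; exact IntermediateField.mem_top
    refine IntermediateField.adjoin_induction (F := L) (p := fun z _ => σ z = z) ?_ ?_ ?_ ?_ ?_ hz
    · rintro _ ⟨p, rfl⟩
      exact hP p
    · intro x
      exact σ.commutes x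
    · intro x y _ _ hx hy
      rw [map_add, hx, hy]
    · intro x _ hx
      rw [map_inv₀, hx]
    · intro x y _ _ hx hy
      rw [map_mul, hx, hy]
  exact key

end Pf72953.Br
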