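import Mathlib
import Pool.Agent.Lib.Pf72953b.Defs

/-!
MODULE Pf72953b.UnrOut: at a Gauss valuation the value group of `N = G·P` is that of `P`.

PROOF.
`val_mem_span`: let `𝔟` be a `k`-basis of `G` (`Module.Basis.ofVectorSpace` or so).  An element `x` of the `P`-span of the image of `G` in `N` is
a finite sum `∑_b e_b 𝔟_b`, `e_b ∈ P` (`Submodule.span` of the image of `G` = span of the image of `𝔟`; `Submodule.mem_span_range_iff_exists_fun`-like
lemmas, `Finsupp.mem_span_range_iff_exists_finsupp`), over a finite set of the basis; enumerate it by `Fin n` (injective, so the `g = 𝔟 ∘ enumeration` are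
linearly independent).  For `n = 0`, `x = 0`.  Otherwise choose `b` with the largest `w (e_b)`: `w x ≤ w (e_b)` since `w (g) ≤ 1` for `g ∈ G`,
and `w (e_b) ≤ w x` by `hgauss` (elements of `P` are algebraic over `Z`).
`unr_gauss`: the `P`-span of the image of `G` is the subalgebra `Algebra.adjoin P (range (algebraMap G N))` (`Algebra.adjoin_eq_span`, the range is a submonoid), and every
`z ∈ N` is a quotient `x / y` of two of its elements (`hN`, `IntermediateField.mem_adjoin_iff_div`; first compare `adjoin k` of
the union with `adjoin P (range (algebraMap G N))`).  So for every `z : N` there is `p : P` with `w z = w p` (quotient; `p = 0` if `z = 0`).  If `w z < 1` then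
`hu` gives `t : Z` with `w t < 1`, `w p ≤ w t`.
-/

set_option autoImplicit false
set_option linter.style.haveILetI false

open scoped WithZero
open Pf72953

namespace Pf72953.Br

variable {k Z P G N : Type*} [Field k] [Field Z] [Field P] [Field G] [Field N] [Algebra k P]
  [Algebra k G] [Algebra k N] [Algebra Z P] [Algebra Z N] [Algebra P N] [Algebra G N]
  [IsScalarTower k P N] [IsScalarTower k G N] [IsScalarTower Z P N]

theorem val_mem_span [Algebra.IsAlgebraic Z P] {w : Valuation N ℤᵐ⁰}
    (hwG : ∀ g : G, g ≠ 0 → w (algebraMap G N g) = 1)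
    (hgauss : ∀ (n : ℕ) (g : Fin n → G) (e : Fin n → N), LinearIndependent k g →
      (∀ a, IsAlgebraic Z (e a)) → ∀ a, w (e a) ≤ w (∑ b, e b * algebraMap G N (g b)))
    {x : N} (hx : x ∈ Submodule.span P (Set.range (algebraMap G N))) :
    ∃ p : P, w x = w (algebraMap P N p) := by
  classical
  set 𝔟 := Module.Basis.ofVectorSpace k G with h𝔟
  have hle : Submodule.span P (Set.range (algebraMap G N)) ≤
      Submodule.span P (Set.range (fun i => algebraMap G N (𝔟 i))) := by
    rw [Submodule.span_le]
    rintro _ ⟨g, rfl⟩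
    have hg : g ∈ Submodule.span k (Set.range 𝔟) := 𝔟.mem_span g
    refine Submodule.span_induction (p := fun g _ => algebraMap G N g ∈
      (Submodule.span P (Set.range (fun i => algebraMap G N (𝔟 i))) : Set N)) ?_ ?_ ?_ ?_ hg
    · rintro _ ⟨i, rfl⟩
      exact Submodule.subset_span ⟨i, rfl⟩
    · rw [map_zero]; exact Submodule.zero_mem _
    · intro a b _ _ ha hb
      rw [map_add]; exact Submodule.add_mem _ ha hb
    · intro c a _ ha
      have h1 : algebraMap G N (c • a) = (algebraMap k P c) • algebraMap G N a := by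
        rw [Algebra.smul_def, map_mul, ← IsScalarTower.algebraMap_apply k G N, Algebra.smul_def,
          ← IsScalarTower.algebraMap_apply k P N]
      rw [h1]
      exact Submodule.smul_mem _ _ ha
  obtain ⟨c, hc⟩ := Finsupp.mem_span_range_iff_exists_finsupp.1 (hle hx)
  by_cases hs : c.support = ∅
  · refine ⟨0, ?_⟩
    rw [Finsupp.support_eq_empty] at hs
    rw [hs, Finsupp.sum_zero_index] at hc
    rw [← hc, map_zero, map_zero, map_zero]
  · have hne : c.support.Nonempty := Finset.nonempty_iff_ne_empty.2 hs
    set n := c.support.card with hn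
    set e : Fin n ≃ {i // i ∈ c.support} := c.support.equivFin.symm with he
    have hn0 : 0 < n := Finset.card_pos.2 hne
    haveI : Nonempty (Fin n) := ⟨⟨0, hn0⟩⟩
    have hxsum : x = ∑ a : Fin n, algebraMap P N (c (e a)) * algebraMap G N (𝔟 (e a)) := by
      rw [← hc, Finsupp.sum, ← Finset.sum_coe_sort c.support
        (fun i => c i • algebraMap G N (𝔟 i))]
      rw [← Equiv.sum_comp e (fun i : {i // i ∈ c.support} => c i.1 • algebraMap G N (𝔟 i.1))]
      exact Finset.sum_congr rfl (fun a _ => Algebra.smul_def _ _)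
    obtain ⟨b0, _, hb0⟩ := Finset.exists_max_image (Finset.univ : Finset (Fin n))
      (fun a => w (algebraMap P N (c (e a)))) Finset.univ_nonempty
    refine ⟨c (e b0), le_antisymm ?_ ?_⟩
    · rw [hxsum]
      refine Valuation.map_sum_le w (fun a _ => ?_)
      have hG1 : w (algebraMap G N (𝔟 (e a))) = 1 := hwG _ (𝔟.ne_zero _)
      rw [map_mul, hG1, mul_one]
      exact hb0 a (Finset.mem_univ a)
    · have hli : LinearIndependent k (fun a : Fin n => 𝔟 (e a)) :=
        𝔟.linearIndependent.comp (fun a : Fin n => (e a).1)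
          (Subtype.val_injective.comp e.injective)
      have := hgauss n (fun a => 𝔟 (e a)) (fun a => algebraMap P N (c (e a))) hli
        (fun a => (Algebra.IsAlgebraic.isAlgebraic (R := Z) (c (e a))).algebraMap) b0
      rw [hxsum]
      exact this

theorem unr_gauss [Algebra.IsAlgebraic Z P] {w : Valuation N ℤᵐ⁰}
    (hwG : ∀ g : G, g ≠ 0 → w (algebraMap G N g) = 1)
    (hgauss : ∀ (n : ℕ) (g : Fin n → G) (e : Fin n → N), LinearIndependent k g →
      (∀ a, IsAlgebraic Z (e a)) → ∀ a, w (e a) ≤ w (∑ b, e b * algebraMap G N (g b)))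
    (hN : ∀ z : N, z ∈ IntermediateField.adjoin k
      (Set.range (algebraMap G N) ∪ Set.range (algebraMap P N)))
    (hu : Unr Z (w.comap (algebraMap P N))) : Unr Z w := by
  have hspan : ∀ x : N, x ∈ Algebra.adjoin P (Set.range (algebraMap G N)) →
      x ∈ Submodule.span P (Set.range (algebraMap G N)) := by
    intro x hx
    have h1 : x ∈ Subalgebra.toSubmodule (Algebra.adjoin P (Set.range (algebraMap G N))) := hx
    rw [Algebra.adjoin_eq_span] at h1
    have h2 : (Submonoid.closure (Set.range (algebraMap G N)) : Set N) ⊆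
        Set.range (algebraMap G N) := by
      intro y hy
      have h3 : Submonoid.closure (Set.range (algebraMap G N)) ≤
          MonoidHom.mrange (algebraMap G N : G →* N) := by
        rw [Submonoid.closure_le]
        rintro _ ⟨g, rfl⟩
        exact ⟨g, rfl⟩
      obtain ⟨g, hg⟩ := h3 hy
      exact ⟨g, hg⟩
    exact Submodule.span_mono h2 h1
  have hval : ∀ z : N, ∃ p : P, w z = w (algebraMap P N p) := by
    intro z
    have h1 : IntermediateField.adjoin k (Set.range (algebraMap G N) ∪ Set.range (algebraMap P N)) ≤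
        (IntermediateField.adjoin P (Set.range (algebraMap G N))).restrictScalars k := by
      rw [IntermediateField.adjoin_le_iff]
      rintro y (⟨g, rfl⟩ | ⟨p, rfl⟩)
      · exact IntermediateField.subset_adjoin P _ ⟨g, rfl⟩
      · exact (IntermediateField.adjoin P (Set.range (algebraMap G N))).algebraMap_mem p
    have h2 : z ∈ IntermediateField.adjoin P (Set.range (algebraMap G N)) := h1 (hN z)
    obtain ⟨r, hr, s, hs, rfl⟩ := IntermediateField.mem_adjoin_iff_div.1 h2
    obtain ⟨p1, hp1⟩ := val_mem_span (Z := Z) hwG hgauss (hspan r hr)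
    obtain ⟨p2, hp2⟩ := val_mem_span (Z := Z) hwG hgauss (hspan s hs)
    refine ⟨p1 / p2, ?_⟩
    rw [map_div₀, hp1, hp2, map_div₀, map_div₀]
  intro z hz
  obtain ⟨p, hp⟩ := hval z
  have h1 : (w.comap (algebraMap P N)) p < 1 := by
    rw [Valuation.comap_apply, ← hp]; exact hz
  obtain ⟨t, ht1, ht2⟩ := hu p h1
  rw [Valuation.comap_apply, ← IsScalarTower.algebraMap_apply Z P N] at ht1
  rw [Valuation.comap_apply, Valuation.comap_apply, ← IsScalarTower.algebraMap_apply Z P N,
    ← hp] at ht2
  exact ⟨t, ht1, ht2⟩

end Pf72953.Br
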