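import Mathlib
import Pool.Agent.Lib.Pf72953.Core
import Pool.Agent.Lib.Pf72953.Reduction
import Pool.Agent.Lib.Pf72953u.Inst
import Pool.Agent.Lib.Pf72953b.PosKod
import Pool.Agent.Lib.Pf72953b.GalUp
import Pool.Agent.Lib.Pf72953b.RamOn
import Pool.Agent.Lib.Pf72953b.Cover
import Pool.Agent.Lib.Pf72953b.UnrOut
import Pool.Agent.Lib.Pf72953t.Main

/-!
Iitaka's inequality for isotrivial fibre spaces over a constant variety of nonnegative Kodaira dimension.
-/

set_option autoImplicit false
set_option linter.style.haveILetI false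

open scoped WithZero
open Pf72953 Pf72953.Var Pf72953.Mov Pf72953.Twr

namespace Pf72953.Br

section pos

variable {k B Y L N J : Type*} [Field k] [CharZero k] [Field B] [Field Y] [Field L] [Field N]
  [Algebra k Y] [Algebra B N] [Algebra Y N] [Algebra L N] [Fintype J] [Algebra.EssFiniteType k Y]
  {M : SmoothModel k Y}

theorem positiveOn (hM : kodairaDim k Y ≠ ⊥) (D : J → MovingDivisor M B N) : PositiveOn L D := by
  have h0 : KodairaGE k Y 0 := by
    rcases kodairaDim_eq (k := k) (K := Y) with h | ⟨c, ⟨m, hm, ω, hω, hω0, -⟩, -⟩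
    · exact absurd h hM
    · exact ⟨m, hm, ω, hω, hω0, Fin.elim0, by
        rw [algebraicIndependent_empty_type_iff]
        exact (algebraMap k Y).injective, fun i => i.elim0⟩
  obtain ⟨m, hm, ω, hω, hω0⟩ := pos_of_kodaira M (fun j => (D j).S) h0
  exact ⟨m, fun _ => 0, fun _ => 0, by simp; omega, fun j hj => absurd rfl hj, ω, hω, hω0⟩

end pos

section var

variable {k B Y Z P N J : Type*} [Field k] [Field B] [Field Y] [Field Z] [Field P]
  [Field N] [Algebra k Y] [Algebra k P] [Algebra k N] [Algebra B Z] [Algebra B P] [Algebra B N]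
  [Algebra Y Z] [Algebra Y P] [Algebra Y N] [Algebra Z P] [Algebra P N] [IsScalarTower k P N]
  [IsScalarTower B P N] [IsScalarTower Y P N] {M : SmoothModel k Y}

/-- finitely many branch divisors suffice for the variation -/
theorem exists_var [FinTrdeg k P] :
    ∃ (ψ : Fin (branchVar k M B Z P) → P) (D : Fin (branchVar k M B Z P) → MovingDivisor M B P),
      AlgebraicIndependent k ψ ∧ ∀ j, IsBranch k Z (D j) ∧ ψ j ∈ (D j).ratios := by
  classical
  set S : Set P := {θ : P | ∃ D : MovingDivisor M B P, IsBranch k Z D ∧ θ ∈ D.ratios} with hS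
  set V := IntermediateField.adjoin k S with hV
  have hle : Algebra.trdeg k V ≤ Algebra.trdeg k P :=
    trdeg_le_of_injective V.val V.val.injective
  have hVv : ((branchVar k M B Z P : ℕ) : Cardinal) = Algebra.trdeg k V := by
    rw [branchVar, dimension, Cardinal.cast_toNat_of_lt_aleph0]
    exact hle.trans_lt (trdeg_lt_aleph0 k P)
  obtain ⟨θ, hθ⟩ := exists_algebraicIndependent_of_le_trdeg hVv.le
  have hθL : AlgebraicIndependent k (fun i => (θ i : P)) :=
    hθ.map' (f := V.val) V.val.injective
  obtain ⟨ψ, hψ, hψS⟩ := exists_indep_in_set S _ hθL (fun i => by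
    rw [← IntermediateField.isAlgebraic_adjoin_iff]
    exact isAlgebraic_algebraMap (θ i))
  choose D hD using hψS
  exact ⟨ψ, D, hψ, hD⟩

theorem le_variation [FinTrdeg k N] (D : J → MovingDivisor M B P) {v : ℕ} {ψ : Fin v → P}
    (hψ : AlgebraicIndependent k ψ) (h : ∀ i, ∃ j, ψ i ∈ (D j).ratios) :
    v ≤ variation k (fun j => mapD N (D j)) := by
  classical
  set V := IntermediateField.adjoin k (⋃ j, (mapD N (D j)).ratios) with hV
  have hmem : ∀ i, algebraMap P N (ψ i) ∈ V := by
    intro i
    obtain ⟨j, hj⟩ := h i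
    refine IntermediateField.subset_adjoin k _ (Set.mem_iUnion.mpr ⟨j, ?_⟩)
    rw [mapD_ratios]
    exact ⟨_, hj, rfl⟩
  have hN : AlgebraicIndependent k (fun i => algebraMap P N (ψ i)) :=
    hψ.map' (f := IsScalarTower.toAlgHom k P N) (algebraMap P N).injective
  have hV' : AlgebraicIndependent k (fun i => (⟨algebraMap P N (ψ i), hmem i⟩ : V)) :=
    AlgebraicIndependent.of_comp V.val hN
  have h1 := natCast_le_trdeg_of_le_dimension hV'
  have hle : Algebra.trdeg k V ≤ Algebra.trdeg k N :=
    trdeg_le_of_injective V.val V.val.injective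
  have hlt : Algebra.trdeg k V < Cardinal.aleph0 := hle.trans_lt (trdeg_lt_aleph0 k N)
  rw [variation, dimension]
  rw [← Cardinal.cast_toNat_of_lt_aleph0 hlt] at h1
  exact_mod_cast h1

end var

theorem dimension_le_card {k K ι : Type*} [Field k] [Field K] [Algebra k K] [Fintype ι] {s : ι → K}
    (h : ∀ a : K, IsAlgebraic (Algebra.adjoin k (Set.range s)) a) :
    dimension k K ≤ Fintype.card ι := by
  haveI : Algebra.IsAlgebraic (Algebra.adjoin k (Set.range s)) K := ⟨h⟩
  have h1 := Algebra.IsAlgebraic.trdeg_le_cardinalMk k (Set.range s)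
  have h2 : Cardinal.mk (Set.range s) < Cardinal.aleph0 := Cardinal.lt_aleph0_of_finite _
  have h3 := Cardinal.toNat_le_toNat h1 h2
  rw [dimension]
  refine h3.trans ?_
  have h4 := Finite.card_range_le s
  rwa [Nat.card_eq_fintype_card (α := ι)] at h4

section tower

variable {k B E L Y Z P G N J : Type*} [Field k] [CharZero k] [IsAlgClosed k] [Field B] [Field E]
  [Field L] [Field Y] [Field Z] [Field P] [Field G] [Field N]
  [Algebra k B] [Algebra k E] [Algebra k L] [Algebra k Y] [Algebra k Z] [Algebra k P] [Algebra k G]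
  [Algebra k N]
  [Algebra B E] [Algebra B L] [Algebra B Z] [Algebra B P] [Algebra B N]
  [Algebra E L] [Algebra E N] [Algebra Y Z] [Algebra Y P] [Algebra Y L] [Algebra Y N]
  [Algebra Z P] [Algebra Z L] [Algebra Z N] [Algebra P N] [Algebra L N] [Algebra G N]
  [IsScalarTower k B E] [IsScalarTower k B L] [IsScalarTower k B Z] [IsScalarTower k B P]
  [IsScalarTower k B N] [IsScalarTower k E L] [IsScalarTower k E N]
  [IsScalarTower k Y Z] [IsScalarTower k Y P] [IsScalarTower k Y L] [IsScalarTower k Y N]
  [IsScalarTower k Z P] [IsScalarTower k Z L] [IsScalarTower k Z N] [IsScalarTower k P N]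
  [IsScalarTower k L N] [IsScalarTower k G N]
  [IsScalarTower B E L] [IsScalarTower B E N] [IsScalarTower B Z P] [IsScalarTower B Z L]
  [IsScalarTower B Z N] [IsScalarTower B P N] [IsScalarTower B L N]
  [IsScalarTower Y Z P] [IsScalarTower Y Z L] [IsScalarTower Y Z N] [IsScalarTower Y P N]
  [IsScalarTower Y L N] [IsScalarTower E L N] [IsScalarTower Z P N] [IsScalarTower Z L N]
  {M : SmoothModel k Y}

omit [CharZero k] [IsAlgClosed k] [Algebra k B] [Algebra k L] [Algebra k Z] [Algebra B L]
  [Algebra Y L] [Algebra Z L] [IsScalarTower k B L] [IsScalarTower k B Z] [IsScalarTower k B P]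
  [IsScalarTower k B N] [IsScalarTower k Y Z] [IsScalarTower k Y P] [IsScalarTower k Y L]
  [IsScalarTower k Y N] [IsScalarTower k Z P] [IsScalarTower k Z L] [IsScalarTower k Z N]
  [IsScalarTower k L N] [IsScalarTower B Z P] [IsScalarTower B Z L] [IsScalarTower B Z N]
  [IsScalarTower B L N] [IsScalarTower Y Z P] [IsScalarTower Y Z L] [IsScalarTower Y Z N]
  [IsScalarTower Y L N] [Algebra k E] [Algebra B E] [Algebra E L] [Algebra E N] [Field E]
  [IsScalarTower k B E] [IsScalarTower k E L] [IsScalarTower k E N] [IsScalarTower B E L]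
  [IsScalarTower B E N] [IsScalarTower E L N] in
theorem unramifiedOutside [FiniteDimensional Z P] [FinTrdeg k N]
    (hN : ∀ z : N, z ∈ IntermediateField.adjoin k
      (Set.range (algebraMap G N) ∪ Set.range (algebraMap P N)))
    (D : J → MovingDivisor M B P)
    (hcov : ∀ (i : M.I) (w : Valuation P ℤᵐ⁰), Bad k M B Z i w →
        ∃ j, w (D j).sec < w (algebraMap Y P ((D j).S.gen i))) :
    UnramifiedOutsideOn k Z L G (fun j => mapD N (D j)) := by
  intro w hw htriv hgauss i hprime hj z hz
  have hwG : ∀ g : G, g ≠ 0 → w (algebraMap G N g) = 1 := by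
    have h1 : ∀ g : G, g ≠ 0 → 1 ≤ w (algebraMap G N g) := by
      intro g hg
      have h := hgauss 1 (fun _ => 1) (fun _ => g) (fun _ => isAlgebraic_one)
        (LinearIndependent.of_subsingleton 0 hg) 0
      simpa using h
    intro g hg
    refine le_antisymm ?_ (h1 g hg)
    have h2 := h1 g⁻¹ (inv_ne_zero hg)
    rw [map_inv₀, map_inv₀] at h2
    have h3 : w (algebraMap G N g) ≠ 0 := by
      rw [Valuation.ne_zero_iff]
      simpa using hg
    exact (one_le_inv₀ (zero_lt_iff.mpr h3)).mp h2
  have hcomp : ∀ z : Z, w.comap (algebraMap P N) (algebraMap Z P z) = w (algebraMap Z N z) :=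
    fun z => by rw [Valuation.comap_apply, ← IsScalarTower.algebraMap_apply Z P N]
  have hcompY : ∀ z : Y, w.comap (algebraMap P N) (algebraMap Y P z) = w (algebraMap Y N z) :=
    fun z => by rw [Valuation.comap_apply, ← IsScalarTower.algebraMap_apply Y P N]
  have hu : Unr Z (w.comap (algebraMap P N)) := by
    by_contra hu
    have hdiv : IsDivisorial k P (w.comap (algebraMap P N)) := by
      rw [Unr] at hu
      push Not at hu
      obtain ⟨z, hz1, hz2⟩ := hu
      have hz0 : z ≠ 0 := by
        rintro rfl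
        refine absurd (hz2 0 (by simp)) (by simp)
      refine hw.restrict ⟨z, hz0, fun h => ?_⟩
      rw [Valuation.comap_apply, h] at hz1
      exact lt_irrefl _ hz1
    have hbad : Bad k M B Z i (w.comap (algebraMap P N)) := by
      refine ⟨hdiv, fun b hb => ?_, ⟨fun f hf => ?_, fun d hdx z hz => ?_⟩, hu⟩
      · rw [Valuation.comap_apply, ← IsScalarTower.algebraMap_apply B P N]
        exact htriv b hb
      · rw [hcompY]
        exact hprime.center f hf
      · rw [hcomp] at hz ⊢
        exact hprime.der d (fun a => by rw [← hcomp]; exact hdx a) z hz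
    obtain ⟨j, hlt⟩ := hcov i _ hbad
    have h4 := hj j
    rw [hcompY, Valuation.comap_apply, ← mapD_sec, h4] at hlt
    exact lt_irrefl _ hlt
  have hgauss' : ∀ (n : ℕ) (g : Fin n → G) (e : Fin n → N), LinearIndependent k g →
      (∀ a, IsAlgebraic Z (e a)) → ∀ a, w (e a) ≤ w (∑ b, e b * algebraMap G N (g b)) :=
    fun n g e hg he a => hgauss n e g he hg a
  exact unr_gauss (k := k) hwG hgauss' hN hu _ hz

/-- **Iitaka's inequality and `C⁺`** for fibre spaces which are isotrivial over a constant variety `M` of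
nonnegative Kodaira dimension, with finite structure group and branch divisors which move in linear systems. -/
theorem main [FiniteDimensional E L] [FiniteDimensional Z P] [IsGalois Z P]
    [Algebra.EssFiniteType k B] [Algebra.EssFiniteType k E] [Algebra.EssFiniteType k Y]
    [Algebra.EssFiniteType k G]
    (hcomp : IsCompositum k B Y Z) (hunr : Unramified k B E L)
    (hdim : dimension k B + dimension k Y + dimension k G = dimension k E)
    (hP : IntermediateField.adjoin L (Set.range (algebraMap P N)) = ⊤)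
    (hN : ∀ z : N, z ∈ IntermediateField.adjoin k
      (Set.range (algebraMap G N) ∪ Set.range (algebraMap P N)))
    (hG : ∀ (σ : N ≃ₐ[L] N) (g : G), ∃ g' : G, σ (algebraMap G N g) = algebraMap G N g')
    (hG1 : ∀ σ : N ≃ₐ[L] N, (∀ g : G, σ (algebraMap G N g) = algebraMap G N g) → σ = 1)
    (hM : kodairaDim k Y ≠ ⊥) (hmv : BranchMoves k M B Z P) :
    kodairaDim k B + kodairaDim B E ≤ kodairaDim k E ∧
    (orbKodairaDim k B E ≠ ⊥ →
      max (orbKodairaDim k B E) ((branchVar k M B Z P : ℕ∞) : WithBot ℕ∞) + kodairaDim B E ≤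
        kodairaDim k E) := by
  classical
  obtain ⟨hfin, hgal⟩ := galois_up (Z := Z) hP
  haveI := hfin
  haveI := hgal
  haveI : CharZero B := charZero_of_injective_algebraMap (algebraMap k B).injective
  haveI : Algebra.EssFiniteType k L := Algebra.EssFiniteType.comp k E L
  haveI : Algebra.EssFiniteType k N := Algebra.EssFiniteType.comp k L N
  have hgen : ∀ z : Z, z ∈ IntermediateField.adjoin B (Set.range (algebraMap Y Z)) := by
    intro z
    have h1 : IntermediateField.adjoin k (Set.range (algebraMap B Z) ∪ Set.range (algebraMap Y Z)) ≤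
        (IntermediateField.adjoin B (Set.range (algebraMap Y Z))).restrictScalars k := by
      rw [IntermediateField.adjoin_le_iff]
      rintro _ (⟨b, rfl⟩ | ⟨b, rfl⟩)
      · exact (IntermediateField.adjoin B (Set.range (algebraMap Y Z))).algebraMap_mem b
      · exact IntermediateField.subset_adjoin B _ ⟨b, rfl⟩
    exact h1 (hcomp z)
  haveI : Algebra.EssFiniteType B Z := Up.essFiniteType_of_gen (k := k) (Y := Y) hgen
  haveI : Algebra.EssFiniteType k Z := Algebra.EssFiniteType.comp k B Z
  haveI : Algebra.EssFiniteType k P := Algebra.EssFiniteType.comp k Z P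
  -- algebraicity
  have halgZ : ∀ a : Z, IsAlgebraic (Algebra.adjoin k
      (Set.range (algebraMap B Z) ∪ Set.range (algebraMap Y Z))) a := by
    intro a
    rw [← IntermediateField.isAlgebraic_adjoin_iff]
    exact isAlgebraic_algebraMap (⟨a, hcomp a⟩ : IntermediateField.adjoin k
      (Set.range (algebraMap B Z) ∪ Set.range (algebraMap Y Z)))
  have halgP : ∀ (T : Set N), (∀ z : Z, algebraMap Z N z ∈ IntermediateField.adjoin k T) →
      ∀ p : P, IsAlgebraic (Algebra.adjoin k T) (algebraMap P N p) := by
    intro T hT p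
    rw [← IntermediateField.isAlgebraic_adjoin_iff]
    letI : Algebra Z (IntermediateField.adjoin k T) :=
      ((algebraMap Z N).codRestrict (IntermediateField.adjoin k T).toSubring hT).toAlgebra
    haveI : IsScalarTower Z (IntermediateField.adjoin k T) N :=
      IsScalarTower.of_algebraMap_eq fun _ => rfl
    have h1 : IsAlgebraic Z (algebraMap P N p) := (Algebra.IsAlgebraic.isAlgebraic p).algebraMap
    exact h1.extendScalars (algebraMap Z (IntermediateField.adjoin k T)).injective
  have hZT : ∀ z : Z, algebraMap Z N z ∈ IntermediateField.adjoin k (Set.range (algebraMap B N) ∪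
      Set.range (algebraMap Y N) ∪ Set.range (algebraMap G N)) := by
    intro z
    have h1 : IntermediateField.adjoin k (Set.range (algebraMap B Z) ∪ Set.range (algebraMap Y Z)) ≤
        (IntermediateField.adjoin k (Set.range (algebraMap B N) ∪
          Set.range (algebraMap Y N) ∪ Set.range (algebraMap G N))).comap
            (IsScalarTower.toAlgHom k Z N) := by
      rw [IntermediateField.adjoin_le_iff]
      rintro _ (⟨b, rfl⟩ | ⟨b, rfl⟩)
      · exact IntermediateField.subset_adjoin k _ (Or.inl (Or.inl ⟨b, by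
          rw [IsScalarTower.algebraMap_apply B Z N]; rfl⟩))
      · exact IntermediateField.subset_adjoin k _ (Or.inl (Or.inr ⟨b, by
          rw [IsScalarTower.algebraMap_apply Y Z N]; rfl⟩))
    exact h1 (hcomp z)
  have halgN : ∀ a : N, IsAlgebraic (Algebra.adjoin k
      (Set.range (algebraMap G N) ∪ Set.range (algebraMap P N))) a := by
    intro a
    rw [← IntermediateField.isAlgebraic_adjoin_iff]
    exact isAlgebraic_algebraMap (⟨a, hN a⟩ : IntermediateField.adjoin k
      (Set.range (algebraMap G N) ∪ Set.range (algebraMap P N)))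
  have halg : ∀ a : N, IsAlgebraic (Algebra.adjoin k (Set.range (algebraMap B N) ∪
      Set.range (algebraMap Y N) ∪ Set.range (algebraMap G N))) a := by
    intro a
    refine (halgN a).adjoin_of_forall_isAlgebraic ?_
    rintro _ ⟨⟨g, rfl⟩ | ⟨p, rfl⟩, h⟩
    · exact absurd (Or.inr ⟨g, rfl⟩) h
    · exact halgP _ hZT p
  -- the dimensions
  obtain ⟨xB, hxB⟩ := exists_tb k B
  obtain ⟨y, hy⟩ := exists_tb k Y
  obtain ⟨xG, hxG⟩ := exists_tb k G
  obtain ⟨zE, hzE⟩ := exists_tb k E
  obtain ⟨xZ, hxZ⟩ := exists_tb k Z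
  have hdimN : dimension k E = dimension k N := by
    haveI : Algebra.IsAlgebraic E N := Algebra.IsAlgebraic.trans E L N
    have h1 : IsTranscendenceBasis k (algebraMap E N ∘ zE) := hzE.algebraMap_comp
    have h2 := card_eq_of_isTranscendenceBasis h1
    rwa [Fintype.card_fin] at h2
  have hdimZ1 : dimension k Z ≤ dimension k B + dimension k Y := by
    have h := dimension_le_card (k := k) (K := Z)
      (s := Sum.elim (fun i => algebraMap B Z (xB i)) (fun i => algebraMap Y Z (y i))) (fun a => by
        refine (halgZ a).adjoin_of_forall_isAlgebraic ?_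
        rintro _ ⟨⟨b, rfl⟩ | ⟨b, rfl⟩, -⟩
        · exact isAlgebraic_transport hxB (Set.range _) (fun i => ⟨Sum.inl i, rfl⟩) b
        · exact isAlgebraic_transport hy (Set.range _) (fun i => ⟨Sum.inr i, rfl⟩) b)
    simpa using h
  have hdimZ2 : dimension k N ≤ dimension k Z + dimension k G := by
    have h := dimension_le_card (k := k) (K := N)
      (s := Sum.elim (fun i => algebraMap Z N (xZ i)) (fun i => algebraMap G N (xG i))) (fun a => by
        refine (halgN a).adjoin_of_forall_isAlgebraic ?_
        rintro _ ⟨⟨b, rfl⟩ | ⟨b, rfl⟩, -⟩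
        · exact isAlgebraic_transport hxG (Set.range _) (fun i => ⟨Sum.inr i, rfl⟩) b
        · have hxP : IsTranscendenceBasis k (algebraMap Z P ∘ xZ) := hxZ.algebraMap_comp
          exact isAlgebraic_transport hxP (Set.range _) (fun i => ⟨Sum.inl i, by
            rw [Sum.elim_inl, IsScalarTower.algebraMap_apply Z P N]; rfl⟩) b)
    simpa using h
  have hdimZ : dimension k B + dimension k Y = dimension k Z := by omega
  have hx : ∀ i, IsTranscendenceBasis B (fun a => algebraMap Y Z (M.x i a)) := fun i =>
    Up.tb_over hdimZ halgZ (M.tb i)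
  -- the divisors
  obtain ⟨n, D₁, hD₁, hcov⟩ := exists_cover M hx hgen hmv
  obtain ⟨ψ, D₂, hψ, hD₂⟩ := exists_var (k := k) (B := B) (Z := Z) (P := P) (M := M)
  set D : Fin n ⊕ Fin (branchVar k M B Z P) → MovingDivisor M B P := Sum.elim D₁ D₂ with hD
  have hDb : ∀ j, IsBranch k Z (D j) := by
    rintro (j | j)
    · exact hD₁ j
    · exact (hD₂ j).1
  have hvar : branchVar k M B Z P ≤ variation k (fun j => mapD N (D j)) :=
    le_variation D hψ fun i => ⟨Sum.inr i, (hD₂ i).2⟩
  have hram : ∀ j, RamifiedOn k L G (mapD N (D j)) := fun j =>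
    ramifiedOn_of_branch M hx hG hG1 (hDb j)
  have hunr' : Unramified k Z L N := unramified_of_const hP
  have hiso : Isotrivial k Z G N := by
    intro z
    refine IntermediateField.adjoin.mono k _ _ ?_ (hN z)
    rintro _ (⟨g, rfl⟩ | ⟨p, rfl⟩)
    · exact Or.inl ⟨g, rfl⟩
    · exact Or.inr (Algebra.IsAlgebraic.isAlgebraic (R := Z) p).algebraMap
  have hout : UnramifiedOutsideOn k Z L G (fun j => mapD N (D j)) :=
    unramifiedOutside hN D fun i w hw => by
      obtain ⟨j, hj⟩ := hcov i w hw
      exact ⟨Sum.inl j, hj⟩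
  haveI : FiniteDimensional E N := FiniteDimensional.trans E L N
  obtain ⟨h1, h2⟩ := lower hcomp hdim halg hunr hunr' (fun j => mapD N (D j)) hram
    (positiveOn hM _)
  have h3 := upper hcomp hdim halg hiso (fun j => mapD N (D j)) hout
  constructor
  · refine le_trans ?_ h1
    rw [add_assoc]
    gcongr
  · intro hne
    refine le_trans ?_ (h2 hne)
    rw [add_assoc]
    gcongr
    exact_mod_cast hvar

end tower

end Pf72953.Br
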